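import Pool.Agent.H342R3.Tig.Stubs
import Mathlib.Topology.UniformSpace.Ascoli
import Mathlib.Analysis.Normed.Group.FunctionSeries

/-!
Compactness: curves which can be cut into a bounded number of pieces at every scale.
-/

namespace H342T

open H342L H342P H342P.Plain H984P MeasureTheory TopologicalSpace Filter Topology
open scoped ENNReal

/-- a ramp -/
noncomputable def ARZ_ramp (a b x : ℝ) : ℝ := max 0 (min 1 ((x - a) / (b - a)))

theorem ARZ_ramp_cont (a b : ℝ) : Continuous (ARZ_ramp a b) := by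
  unfold ARZ_ramp
  fun_prop

theorem ARZ_ramp_nonneg (a b x : ℝ) : 0 ≤ ARZ_ramp a b x := le_max_left _ _

theorem ARZ_ramp_le (a b x : ℝ) : ARZ_ramp a b x ≤ 1 := max_le zero_le_one (min_le_left _ _)

theorem ARZ_ramp_mono {a b : ℝ} (h : a < b) : Monotone (ARZ_ramp a b) := by
  intro x y hxy
  unfold ARZ_ramp
  apply max_le_max le_rfl
  apply min_le_min le_rfl
  apply div_le_div_of_nonneg_right _ (sub_pos.mpr h).le
  linarith

theorem ARZ_ramp_zero {a b x : ℝ} (h : a < b) (hx : x ≤ a) : ARZ_ramp a b x = 0 := by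
  unfold ARZ_ramp
  apply max_eq_left
  refine (min_le_right _ _).trans ?_
  apply div_nonpos_of_nonpos_of_nonneg
  · linarith
  · linarith

theorem ARZ_ramp_one {a b x : ℝ} (h : a < b) (hx : b ≤ x) : ARZ_ramp a b x = 1 := by
  unfold ARZ_ramp
  have h1 : 1 ≤ (x - a) / (b - a) := by
    rw [le_div_iff₀ (sub_pos.mpr h)]
    linarith
  rw [min_eq_left h1]
  exact max_eq_right zero_le_one

/-- the function which takes the value `i / k` at `t i` -/
noncomputable def ARZ_g (k : ℕ) (t : ℕ → ℝ) (x : ℝ) : ℝ :=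
  (1 / (k : ℝ)) * ∑ i ∈ Finset.range k, ARZ_ramp (t i) (t (i + 1)) x

theorem ARZ_g_cont (k : ℕ) (t : ℕ → ℝ) : Continuous (ARZ_g k t) := by
  unfold ARZ_g
  exact continuous_const.mul (continuous_finsetSum _ fun i _ => ARZ_ramp_cont _ _)

theorem ARZ_t_mono {k : ℕ} {t : ℕ → ℝ} (ht : ∀ i < k, t i < t (i + 1)) :
    ∀ i j, i ≤ j → j ≤ k → t i ≤ t j := by
  intro i j hij
  induction j, hij using Nat.le_induction with
  | base => intro _; exact le_rfl
  | succ j hj ih =>
    intro hk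
    exact (ih (by omega)).trans (ht j (by omega)).le

section

variable {k : ℕ} {t : ℕ → ℝ} (hk : 0 < k) (h0 : t 0 = 0) (h1 : t k = 1)
  (ht : ∀ i < k, t i < t (i + 1))

include ht in
theorem ARZ_g_mono : Monotone (ARZ_g k t) := by
  intro x y hxy
  unfold ARZ_g
  apply mul_le_mul_of_nonneg_left _ (by positivity)
  exact Finset.sum_le_sum fun i hi => ARZ_ramp_mono (ht i (Finset.mem_range.mp hi)) hxy

theorem ARZ_g_nonneg (x : ℝ) : 0 ≤ ARZ_g k t x := by
  unfold ARZ_g
  exact mul_nonneg (by positivity) (Finset.sum_nonneg fun i _ => ARZ_ramp_nonneg _ _ _)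

include hk in
theorem ARZ_g_le (x : ℝ) : ARZ_g k t x ≤ 1 := by
  unfold ARZ_g
  have hk' : (0 : ℝ) < k := by exact_mod_cast hk
  rw [one_div, inv_mul_le_iff₀ hk', mul_one]
  calc ∑ i ∈ Finset.range k, ARZ_ramp (t i) (t (i + 1)) x ≤ ∑ i ∈ Finset.range k, (1 : ℝ) :=
        Finset.sum_le_sum fun i _ => ARZ_ramp_le _ _ _
    _ = k := by simp

include h0 ht in
theorem ARZ_g_zero : ARZ_g k t 0 = 0 := by
  unfold ARZ_g
  rw [Finset.sum_eq_zero, mul_zero]
  intro i hi
  rw [Finset.mem_range] at hi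
  apply ARZ_ramp_zero (ht i hi)
  rw [← h0]
  exact ARZ_t_mono ht 0 i (Nat.zero_le _) hi.le

include hk h1 ht in
theorem ARZ_g_one : ARZ_g k t 1 = 1 := by
  unfold ARZ_g
  have hk' : (k : ℝ) ≠ 0 := by exact_mod_cast hk.ne'
  rw [Finset.sum_congr rfl (g := fun _ => (1 : ℝ)), Finset.sum_const, Finset.card_range,
    nsmul_eq_mul, mul_one, one_div, inv_mul_cancel₀ hk']
  intro i hi
  rw [Finset.mem_range] at hi
  apply ARZ_ramp_one (ht i hi)
  rw [← h1]
  exact ARZ_t_mono ht (i + 1) k hi le_rfl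

include hk ht in
/-- if a whole piece lies between `s` and `s'`, the function increases by at least `1 / k` -/
theorem ARZ_g_jump {s s' : ℝ} (hs : s ≤ s') (i : ℕ) (hi : i < k) (h2 : s ≤ t i)
    (h3 : t (i + 1) ≤ s') : 1 / (k : ℝ) ≤ ARZ_g k t s' - ARZ_g k t s := by
  unfold ARZ_g
  rw [← mul_sub, ← Finset.sum_sub_distrib]
  have hk' : (0 : ℝ) < 1 / k := by
    have : (0 : ℝ) < k := by exact_mod_cast hk
    positivity
  have h4 : (1 : ℝ) ≤ ∑ j ∈ Finset.range k,
      (ARZ_ramp (t j) (t (j + 1)) s' - ARZ_ramp (t j) (t (j + 1)) s) := by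
    have h5 : ARZ_ramp (t i) (t (i + 1)) s' - ARZ_ramp (t i) (t (i + 1)) s = 1 := by
      rw [ARZ_ramp_one (ht i hi) h3, ARZ_ramp_zero (ht i hi) h2, sub_zero]
    rw [← h5]
    exact Finset.single_le_sum
      (f := fun j => ARZ_ramp (t j) (t (j + 1)) s' - ARZ_ramp (t j) (t (j + 1)) s)
      (fun j hj => sub_nonneg.mpr (ARZ_ramp_mono (ht j (Finset.mem_range.mp hj)) hs))
      (Finset.mem_range.mpr hi)
  calc 1 / (k : ℝ) = 1 / (k : ℝ) * 1 := (mul_one _).symm
    _ ≤ _ := mul_le_mul_of_nonneg_left h4 hk'.le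

include hk h0 h1 ht in
theorem ARZ_close {γ : C(unitInterval, ℂ)} {r : ℝ}
    (hγ : ∀ i < k, ∀ s s' : unitInterval, t i ≤ (s : ℝ) → (s : ℝ) ≤ t (i + 1) →
      t i ≤ (s' : ℝ) → (s' : ℝ) ≤ t (i + 1) → dist (γ s) (γ s') ≤ r)
    (s s' : unitInterval) (hs : s ≤ s')
    (hg : ARZ_g k t s' - ARZ_g k t s < 1 / (k : ℝ)) : dist (γ s) (γ s') ≤ 2 * r := by
  classical
  have hs' : (s : ℝ) ≤ s' := hs
  -- the piece of `s`
  obtain ⟨i, hik, hi1, hi2⟩ : ∃ i < k, t i ≤ (s : ℝ) ∧ (s : ℝ) ≤ t (i + 1) := by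
    have hex : ∃ i, i < k ∧ t i ≤ (s : ℝ) := ⟨0, hk, by rw [h0]; exact s.2.1⟩
    let i := Nat.findGreatest (fun i => i < k ∧ t i ≤ (s : ℝ)) k
    have hi : i < k ∧ t i ≤ (s : ℝ) := Nat.findGreatest_spec (P := fun i => i < k ∧ t i ≤ (s : ℝ))
      (Nat.zero_le k) ⟨hk, by rw [h0]; exact s.2.1⟩
    refine ⟨i, hi.1, hi.2, ?_⟩
    by_contra hcon
    push Not at hcon
    have h5 : i + 1 < k := by
      by_contra h6
      have h7 : i + 1 = k := by omega
      rw [h7, h1] at hcon
      exact absurd s.2.2 (not_le.mpr hcon)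
    have h8 : i + 1 ≤ i := Nat.le_findGreatest (P := fun i => i < k ∧ t i ≤ (s : ℝ)) h5.le
      ⟨h5, hcon.le⟩
    omega
  have hr : 0 ≤ r := dist_nonneg.trans (hγ i hik s s hi1 hi2 hi1 hi2)
  by_cases h2 : (s' : ℝ) ≤ t (i + 1)
  · have := hγ i hik s s' hi1 hi2 (hi1.trans hs') h2
    linarith
  · push Not at h2
    have h3 : i + 1 < k := by
      by_contra h6
      have h7 : i + 1 = k := by omega
      rw [h7, h1] at h2
      exact absurd s'.2.2 (not_le.mpr h2)
    have h4 : (s' : ℝ) ≤ t (i + 1 + 1) := by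
      by_contra h5
      push Not at h5
      have := ARZ_g_jump hk ht hs' (i + 1) h3 hi2 h5.le
      linarith
    have hm0 : 0 ≤ t (i + 1) := by
      rw [← h0]
      exact ARZ_t_mono ht 0 (i + 1) (Nat.zero_le _) h3.le
    have hm1 : t (i + 1) ≤ 1 := by
      rw [← h1]
      exact ARZ_t_mono ht (i + 1) k h3.le le_rfl
    let u : unitInterval := ⟨t (i + 1), hm0, hm1⟩
    have e1 := hγ i hik s u hi1 hi2 (ht i hik).le le_rfl
    have e2 := hγ (i + 1) h3 u s' le_rfl (ht (i + 1) h3).le h2.le h4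
    have := dist_triangle (γ s) (γ u) (γ s')
    linarith

end

/-- the new parameter -/
theorem ARZ_param (D : ℕ → ℕ) (γ : C(unitInterval, ℂ))
    (h : ∀ j : ℕ, Cut (D j) (1 / ((j:ℝ) + 1)) γ) : ∃ φ : unitInterval ≃o unitInterval,
      ∀ (j : ℕ) (s s' : unitInterval),
        dist (φ s) (φ s') < 1 / (2 ^ (j + 2) * max 1 (D j : ℝ)) →
          dist (γ s) (γ s') ≤ 2 / ((j : ℝ) + 1) := by
  choose k t hk hkD ht0 ht1 htm hγ using h
  let g : ℕ → ℝ → ℝ := fun j => ARZ_g (k j) (t j)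
  let w : ℕ → ℝ := fun j => (1 / 2) ^ (j + 1)
  have hw : Summable w := by
    have h1 : Summable fun j : ℕ => (1 / 2 : ℝ) ^ j :=
      summable_geometric_of_lt_one (by norm_num) (by norm_num)
    exact (summable_nat_add_iff 1).mpr h1
  have hwsum : ∑' j, w j = 1 := by
    have h1 : Summable fun j : ℕ => (1 / 2 : ℝ) ^ j :=
      summable_geometric_of_lt_one (by norm_num) (by norm_num)
    have h2 := h1.sum_add_tsum_nat_add 1
    rw [tsum_geometric_of_lt_one (by norm_num) (by norm_num)] at h2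
    simp only [Finset.range_one, Finset.sum_singleton, pow_zero] at h2
    have h3 : ∑' j, w j = ∑' j : ℕ, (1 / 2 : ℝ) ^ (j + 1) := rfl
    rw [h3]
    norm_num at h2 ⊢
    linarith
  have hw0 : ∀ j, 0 ≤ w j := fun j => by positivity
  have hg0 : ∀ j x, 0 ≤ g j x := fun j x => ARZ_g_nonneg x
  have hg1 : ∀ j x, g j x ≤ 1 := fun j x => ARZ_g_le (hk j) x
  have hgm : ∀ j, Monotone (g j) := fun j => ARZ_g_mono (htm j)
  have hsum : ∀ x, Summable fun j => w j * g j x := fun x =>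
    Summable.of_nonneg_of_le (fun j => mul_nonneg (hw0 j) (hg0 j x))
      (fun j => by
        calc w j * g j x ≤ w j * 1 := mul_le_mul_of_nonneg_left (hg1 j x) (hw0 j)
          _ = w j := mul_one _) hw
  let Φ : ℝ → ℝ := fun x => (x + ∑' j, w j * g j x) / 2
  have hΦc : Continuous Φ := by
    have h1 : Continuous fun x => ∑' j, w j * g j x := by
      refine continuous_tsum (fun j => continuous_const.mul (ARZ_g_cont _ _)) hw fun j x => ?_
      rw [Real.norm_eq_abs, abs_of_nonneg (mul_nonneg (hw0 j) (hg0 j x))]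
      calc w j * g j x ≤ w j * 1 := mul_le_mul_of_nonneg_left (hg1 j x) (hw0 j)
        _ = w j := mul_one _
    exact (continuous_id.add h1).div_const 2
  have hdiff : ∀ x y, x ≤ y → Φ y - Φ x = ((y - x) + ∑' j, w j * (g j y - g j x)) / 2 := by
    intro x y _
    have h1 : ∑' j, w j * (g j y - g j x) = ∑' j, w j * g j y - ∑' j, w j * g j x := by
      rw [← (hsum y).tsum_sub (hsum x)]
      congr 1
      funext j
      ring
    rw [h1]
    show (y + ∑' j, w j * g j y) / 2 - (x + ∑' j, w j * g j x) / 2 = _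
    ring
  have hsumd : ∀ x y, Summable fun j => w j * (g j y - g j x) := by
    intro x y
    have := (hsum y).sub (hsum x)
    refine this.congr fun j => ?_
    ring
  have hΦm : StrictMono Φ := by
    intro x y hxy
    have h1 := hdiff x y hxy.le
    have h2 : 0 ≤ ∑' j, w j * (g j y - g j x) :=
      tsum_nonneg fun j => mul_nonneg (hw0 j) (sub_nonneg.mpr (hgm j hxy.le))
    linarith
  have hΦ0 : Φ 0 = 0 := by
    show (0 + ∑' j, w j * g j 0) / 2 = 0
    have : ∀ j, w j * g j 0 = 0 := fun j => by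
      rw [show g j 0 = 0 from ARZ_g_zero (ht0 j) (htm j), mul_zero]
    simp only [this, tsum_zero]
    norm_num
  have hΦ1 : Φ 1 = 1 := by
    show (1 + ∑' j, w j * g j 1) / 2 = 1
    have : ∀ j, w j * g j 1 = w j := fun j => by
      rw [show g j 1 = 1 from ARZ_g_one (hk j) (ht1 j) (htm j), mul_one]
    simp only [this, hwsum]
    norm_num
  let f : unitInterval → unitInterval := fun s => ⟨Φ s, by
    constructor
    · rw [← hΦ0]; exact hΦm.monotone s.2.1
    · rw [← hΦ1]; exact hΦm.monotone s.2.2⟩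
  have hfm : StrictMono f := fun s s' hs => hΦm hs
  have hfs : Function.Surjective f := by
    intro y
    have h1 := intermediate_value_Icc (zero_le_one' ℝ) hΦc.continuousOn
    rw [hΦ0, hΦ1] at h1
    obtain ⟨x, hx, hxy⟩ := h1 y.2
    exact ⟨⟨x, hx⟩, Subtype.ext hxy⟩
  let φ : unitInterval ≃o unitInterval := StrictMono.orderIsoOfSurjective f hfm hfs
  have hφ : ∀ s, ((φ s : unitInterval) : ℝ) = Φ s := fun s => rfl
  refine ⟨φ, ?_⟩
  have key : ∀ (j : ℕ) (s s' : unitInterval), s ≤ s' →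
      dist (φ s) (φ s') < 1 / (2 ^ (j + 2) * max 1 (D j : ℝ)) →
      dist (γ s) (γ s') ≤ 2 / ((j : ℝ) + 1) := by
    intro j s s' hs hd
    have hs' : (s : ℝ) ≤ s' := hs
    have h1 : Φ s' - Φ s < 1 / (2 ^ (j + 2) * max 1 (D j : ℝ)) := by
      refine lt_of_le_of_lt ?_ hd
      rw [dist_comm, Subtype.dist_eq, Real.dist_eq, hφ, hφ]
      exact le_abs_self _
    have h2 := hdiff s s' hs'
    have h3 : w j * (g j s' - g j s) ≤ ∑' i, w i * (g i s' - g i s) :=
      (hsumd s s').le_tsum j fun i _ => mul_nonneg (hw0 i) (sub_nonneg.mpr (hgm i hs'))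
    have h4 : w j * (g j s' - g j s) < 2 / (2 ^ (j + 2) * max 1 (D j : ℝ)) := by
      have e : (2 : ℝ) / (2 ^ (j + 2) * max 1 (D j : ℝ)) =
          2 * (1 / (2 ^ (j + 2) * max 1 (D j : ℝ))) := by ring
      rw [e]
      linarith
    have hM : (0 : ℝ) < max 1 (D j : ℝ) := lt_max_of_lt_left one_pos
    have h5 : g j s' - g j s < 1 / max 1 (D j : ℝ) := by
      have e1 : w j * 2 ^ (j + 1) = 1 := by
        show (1 / 2 : ℝ) ^ (j + 1) * 2 ^ (j + 1) = 1
        rw [← mul_pow]
        norm_num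
      have e2 : (0 : ℝ) < 2 ^ (j + 1) := by positivity
      have e3 := mul_lt_mul_of_pos_left h4 e2
      have e4 : (2 : ℝ) ^ (j + 1) * (w j * (g j s' - g j s)) = g j s' - g j s := by
        calc (2 : ℝ) ^ (j + 1) * (w j * (g j s' - g j s)) =
            (w j * 2 ^ (j + 1)) * (g j s' - g j s) := by ring
          _ = _ := by rw [e1, one_mul]
      have e5 : (2 : ℝ) ^ (j + 1) * (2 / (2 ^ (j + 2) * max 1 (D j : ℝ))) =
          1 / max 1 (D j : ℝ) := by
        have : (2 : ℝ) ^ (j + 2) = 2 ^ (j + 1) * 2 := by ring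
        rw [this]
        field_simp
      rw [e4, e5] at e3
      exact e3
    have h6 : (1 : ℝ) / max 1 (D j : ℝ) ≤ 1 / (k j : ℝ) := by
      apply one_div_le_one_div_of_le
      · exact_mod_cast hk j
      · exact le_max_of_le_right (by exact_mod_cast hkD j)
    have h7 := ARZ_close (hk j) (ht0 j) (ht1 j) (htm j) (hγ j) s s' hs (lt_of_lt_of_le h5 h6)
    calc dist (γ s) (γ s') ≤ 2 * (1 / ((j : ℝ) + 1)) := h7
      _ = 2 / ((j : ℝ) + 1) := by ring
  intro j s s' hd
  rcases le_total s s' with hs | hs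
  · exact key j s s' hs hd
  · rw [dist_comm] at hd ⊢
    exact key j s' s hs hd

/-- the family of functions -/
def ARZ_F (D : ℕ → ℕ) : Set (unitInterval → ℂ) :=
  {f | (∀ s, f s ∈ csq) ∧ ∀ (j : ℕ) (s s' : unitInterval),
    dist s s' < 1 / (2 ^ (j + 2) * max 1 (D j : ℝ)) → dist (f s) (f s') ≤ 2 / ((j : ℝ) + 1)}

theorem ARZ_F_compact (D : ℕ → ℕ) : IsCompact (ARZ_F D) := by
  have h1 : IsCompact (Set.pi Set.univ (fun _ : unitInterval => csq)) :=
    isCompact_univ_pi fun _ => isCompact_csq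
  have h2 : IsClosed {f : unitInterval → ℂ | ∀ (j : ℕ) (s s' : unitInterval),
      dist s s' < 1 / (2 ^ (j + 2) * max 1 (D j : ℝ)) →
        dist (f s) (f s') ≤ 2 / ((j : ℝ) + 1)} := by
    simp only [Set.ofPred_forall]
    refine isClosed_iInter fun j => isClosed_iInter fun s => isClosed_iInter fun s' =>
      isClosed_iInter fun _ => ?_
    exact isClosed_le ((continuous_apply s).dist (continuous_apply s')) continuous_const
  have h3 : ARZ_F D = Set.pi Set.univ (fun _ : unitInterval => csq) ∩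
      {f : unitInterval → ℂ | ∀ (j : ℕ) (s s' : unitInterval),
      dist s s' < 1 / (2 ^ (j + 2) * max 1 (D j : ℝ)) →
        dist (f s) (f s') ≤ 2 / ((j : ℝ) + 1)} := by
    ext f
    simp [ARZ_F]
  rw [h3]
  exact h1.inter_right h2

theorem ARZ_cont {D : ℕ → ℕ} {f : unitInterval → ℂ} (hf : f ∈ ARZ_F D) : Continuous f := by
  rw [Metric.continuous_iff]
  intro s ε hε
  obtain ⟨j, hj⟩ := exists_nat_gt (2 / ε)
  refine ⟨1 / (2 ^ (j + 2) * max 1 (D j : ℝ)), ?_, fun s' hs' => ?_⟩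
  · have hM : (0 : ℝ) < max 1 (D j : ℝ) := lt_max_of_lt_left one_pos
    positivity
  · refine (hf.2 j s' s hs').trans_lt ?_
    rw [div_lt_iff₀ (by positivity)]
    rw [div_lt_iff₀ hε] at hj
    nlinarith

theorem ARZ_FF_compact (D : ℕ → ℕ) :
    IsCompact {f : C(unitInterval, ℂ) | (f : unitInterval → ℂ) ∈ ARZ_F D} := by
  apply ArzelaAscoli.isCompact_of_equicontinuous
  · have : ContinuousMap.toFun '' {f : C(unitInterval, ℂ) | (f : unitInterval → ℂ) ∈ ARZ_F D} =
        ARZ_F D := by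
      ext f
      constructor
      · rintro ⟨g, hg, rfl⟩
        exact hg
      · intro hf
        exact ⟨⟨f, ARZ_cont hf⟩, hf, rfl⟩
    rw [this]
    exact ARZ_F_compact D
  · intro s
    rw [Metric.equicontinuousAt_iff_right]
    intro ε hε
    obtain ⟨j, hj⟩ := exists_nat_gt (2 / ε)
    have hpos : 0 < 1 / (2 ^ (j + 2) * max 1 (D j : ℝ)) := by
      have hM : (0 : ℝ) < max 1 (D j : ℝ) := lt_max_of_lt_left one_pos
      positivity
    filter_upwards [Metric.ball_mem_nhds s hpos] with s' hs' f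
    have hs2 : dist s s' < 1 / (2 ^ (j + 2) * max 1 (D j : ℝ)) := by
      rw [dist_comm]
      exact hs'
    refine (f.2.2 j s s' hs2).trans_lt ?_
    rw [div_lt_iff₀ (by positivity)]
    rw [div_lt_iff₀ hε] at hj
    nlinarith

theorem t_ARZ : St_ARZ := by
  intro D
  let E : C(unitInterval, ℂ) → Curve := fun f => ⟨f⟩
  have hE : Continuous E := by
    apply LipschitzWith.continuous (K := 1)
    apply LipschitzWith.of_dist_le_mul
    intro f g
    rw [NNReal.coe_one, one_mul]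
    have h1 := cdist_le f g (OrderIso.refl _)
    have h2 : rep g (OrderIso.refl _) = g := by ext t; rfl
    rw [h2] at h1
    exact h1
  have hK : IsCompact (E '' {f : C(unitInterval, ℂ) | (f : unitInterval → ℂ) ∈ ARZ_F D}) :=
    (ARZ_FF_compact D).image hE
  refine ⟨closure (E '' {f : C(unitInterval, ℂ) | (f : unitInterval → ℂ) ∈ ARZ_F D}),
    hK.closure, isClosed_closure, ?_⟩
  intro c hc hcut
  obtain ⟨φ, hφ⟩ := ARZ_param D c.path hcut
  have hf : (rep c.path φ.symm : C(unitInterval, ℂ)) ∈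
      {f : C(unitInterval, ℂ) | (f : unitInterval → ℂ) ∈ ARZ_F D} := by
    refine ⟨fun s => hc _, fun j s s' hs => ?_⟩
    show dist (c.path (φ.symm s)) (c.path (φ.symm s')) ≤ _
    apply hφ j
    rw [OrderIso.apply_symm_apply, OrderIso.apply_symm_apply]
    exact hs
  have hd : dist c (E (rep c.path φ.symm)) = 0 := by
    apply le_antisymm _ dist_nonneg
    have h1 := cdist_le c.path (rep c.path φ.symm) φ
    have h2 : rep (rep c.path φ.symm) φ = c.path := by
      ext t
      show c.path (φ.symm (φ t)) = c.path t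
      rw [OrderIso.symm_apply_apply]
    rw [h2, dist_self] at h1
    exact h1
  rw [Metric.mem_closure_iff]
  intro ε hε
  exact ⟨E (rep c.path φ.symm), ⟨_, hf, rfl⟩, by rw [hd]; exact hε⟩

end H342T
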