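import Pool.Agent.H342R3.Tig.Stubs

/-!
Task T-CNT (helper409): the expected number of strands.
-/

namespace H342T

open H342L H342P H342P.Plain H984P MeasureTheory TopologicalSpace Filter Topology
open H974

/-- the event of a strand -/
def cnt_st (a : ℕ) (b : ℤ) (x : ℕ × ℤ) (F : Finset Edge) : Prop :=
  ∃ (Y : ℤ) (T : ℕ), Strand (↑F : Set Edge) (b + x.1 * a) x.2 (b + x.1 * a + 3 * a) Y T

theorem cnt_NS (n a : ℕ) (b c : ℤ) (F : Finset Edge) : (NS n a b c F : ℝ) =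
    ∑ x ∈ Finset.range (n / a + 2) ×ˢ Finset.Icc c (c + n), ind (cnt_st a b x F) := by
  classical
  unfold NS
  rw [Finset.card_filter]
  push_cast
  refine Finset.sum_congr rfl fun x _ => ?_
  by_cases h : cnt_st a b x F
  · rw [ind_of h]
    unfold cnt_st at h
    rw [if_pos h]
  · rw [ind_not_of h]
    unfold cnt_st at h
    rw [if_neg h]

theorem cnt_sum {C : ℝ} (hC : 0 < C)
    (hcount : ∀ (A X c : ℤ) (n a : ℕ) (S : Finset Edg), 5 ≤ a → A + 3 * a ≤ X →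
      ∑ y0 ∈ Finset.Icc c (c + n), Pr (fun _ => (1/2:ℝ)) S
        (fun F => ∃ (Y : ℤ) (T : ℕ), Strand (↑F) A y0 X Y T) ≤ C * ((n:ℝ) / a + 1))
    (n a : ℕ) (ha : 5 ≤ a) (b c : ℤ) (S : Finset Edg) :
    ∑ x ∈ Finset.range (n / a + 2) ×ˢ Finset.Icc c (c + n),
      Pr (fun _ => (1/2:ℝ)) S (fun F => cnt_st a b x F) ≤ 2 * C * ((n:ℝ) / a + 1) ^ 2 := by
  rw [Finset.sum_product]
  have h1 : ∀ i ∈ Finset.range (n / a + 2), ∑ y0 ∈ Finset.Icc c (c + n),
      Pr (fun _ => (1/2:ℝ)) S (fun F => cnt_st a b (i, y0) F) ≤ C * ((n:ℝ) / a + 1) :=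
    fun i _ => hcount (b + i * a) (b + i * a + 3 * a) c n a S ha le_rfl
  refine le_trans (Finset.sum_le_card_nsmul _ _ _ h1) ?_
  rw [nsmul_eq_mul, Finset.card_range]
  have h3 : ((n / a + 2 : ℕ) : ℝ) ≤ 2 * ((n:ℝ) / a + 1) := by
    push_cast
    have h4 : ((n / a : ℕ) : ℝ) ≤ (n:ℝ) / a := Nat.cast_div_le
    have h5 : (0:ℝ) ≤ (n:ℝ) / a := by positivity
    linarith
  have h5 : 0 ≤ C * ((n:ℝ) / a + 1) := by positivity
  calc ((n / a + 2 : ℕ) : ℝ) * (C * ((n:ℝ) / a + 1))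
      ≤ (2 * ((n:ℝ) / a + 1)) * (C * ((n:ℝ) / a + 1)) := mul_le_mul_of_nonneg_right h3 h5
    _ = 2 * C * ((n:ℝ) / a + 1) ^ 2 := by ring

theorem t_CNT : St_CNT := by
  obtain ⟨C, hC, hcount⟩ := strand_count_sum
  refine ⟨8 * C, by positivity, ?_⟩
  intro n a m ha hm
  have hok : Ok (fun _ : Edg => (1/2:ℝ)) := fun _ => ⟨by norm_num, by norm_num⟩
  set B := 2 * C * ((n:ℝ) / a + 1) ^ 2 with hB
  set S := RE 0 n 0 n with hS
  -- the four expectations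
  have e0 : ∀ (b c : ℤ) (g : Finset Edg → Finset Edg) (S' : Finset Edg),
      (∀ A : Finset Edg → Prop, Pr (fun _ => (1/2:ℝ)) S (fun F => A (g F)) =
        Pr (fun _ => (1/2:ℝ)) S' A) →
      Ex (fun _ => (1/2:ℝ)) S (fun F => (NS n a b c (g F) : ℝ)) ≤ B := by
    intro b c g S' hg
    have h1 : Ex (fun _ => (1/2:ℝ)) S (fun F => (NS n a b c (g F) : ℝ)) =
        ∑ x ∈ Finset.range (n / a + 2) ×ˢ Finset.Icc c (c + n),
          Pr (fun _ => (1/2:ℝ)) S' (fun F => cnt_st a b x F) := by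
      rw [Ex_congr (g := fun F => ∑ x ∈ Finset.range (n / a + 2) ×ˢ Finset.Icc c (c + n),
        ind (cnt_st a b x (g F))) (fun F _ => cnt_NS n a b c (g F)), Ex_sum]
      refine Finset.sum_congr rfl fun x _ => ?_
      exact hg (fun F => cnt_st a b x F)
    rw [h1]
    exact cnt_sum hC hcount n a ha b c S'
  have x0 := e0 0 0 (fun F => F) S (fun A => rfl)
  have x1 := e0 (-n) 0 (fun F => rM F) (rM S) (fun A => (rot_pr _ _ _).symm)
  have x2 := e0 (-n) (-n) (fun F => rM (rM F)) (rM (rM S)) (fun A => by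
    rw [← rot_pr (A := fun F => A (rM F)), ← rot_pr])
  have x3 := e0 0 (-n) (fun F => rM (rM (rM F))) (rM (rM (rM S))) (fun A => by
    rw [← rot_pr (A := fun F => A (rM (rM F))), ← rot_pr (A := fun F => A (rM F)), ← rot_pr])
  have hN : Ex (fun _ => (1/2:ℝ)) S (fun F => (N4 n a F : ℝ)) ≤ 4 * B := by
    have h1 : Ex (fun _ => (1/2:ℝ)) S (fun F => (N4 n a F : ℝ)) =
        Ex (fun _ => (1/2:ℝ)) S (fun F => (NS n a 0 0 F : ℝ)) +
        Ex (fun _ => (1/2:ℝ)) S (fun F => (NS n a (-n) 0 (rM F) : ℝ)) +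
        Ex (fun _ => (1/2:ℝ)) S (fun F => (NS n a (-n) (-n) (rM (rM F)) : ℝ)) +
        Ex (fun _ => (1/2:ℝ)) S (fun F => (NS n a 0 (-n) (rM (rM (rM F))) : ℝ)) := by
      rw [← Ex_add, ← Ex_add, ← Ex_add]
      refine Ex_congr fun F _ => ?_
      unfold N4
      push_cast
      ring
    rw [h1]
    linarith
  have hm0 : (0:ℝ) < m := by exact_mod_cast hm
  have hmark : (m:ℝ) * Pr (fun _ => (1/2:ℝ)) S (fun F => m ≤ N4 n a F) ≤
      Ex (fun _ => (1/2:ℝ)) S (fun F => (N4 n a F : ℝ)) := by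
    unfold Pr
    rw [← Ex_mul_left]
    refine Ex_mono hok fun F _ => ?_
    by_cases h : m ≤ N4 n a F
    · rw [ind_of h, mul_one]
      exact_mod_cast h
    · rw [ind_not_of h, mul_zero]
      positivity
  rw [le_div_iff₀ hm0]
  calc Pr (fun _ => (1/2:ℝ)) S (fun F => m ≤ N4 n a F) * m
      = (m:ℝ) * Pr (fun _ => (1/2:ℝ)) S (fun F => m ≤ N4 n a F) := mul_comm _ _
    _ ≤ 4 * B := hmark.trans hN
    _ = 8 * C * ((n:ℝ) / a + 1) ^ 2 := by rw [hB]; ring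

end H342T
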