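import Pool.Agent.H342R3.Lim.Ex
import Pool.Agent.H984R3.Per.LowSharp
import Pool.Agent.H984R3.Per.Extent

/-!
The closed lattice path which traces the outer boundary of a cluster, and tightness.
-/

namespace H342T

open H342L H342P H342P.Plain H984P MeasureTheory TopologicalSpace Filter Topology

/-- The polygonal path through `f 0, …, f N`, with constant speed. -/
noncomputable def poly (f : ℕ → ℂ) (N : ℕ) : C(unitInterval, ℂ) where
  toFun t := f 0 + ∑ j ∈ Finset.range N,
    ((max 0 (min 1 ((N : ℝ) * (t : ℝ) - j)) : ℝ) : ℂ) * (f (j + 1) - f j)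
  continuous_toFun := by fun_prop

/-- `c` is the closed lattice path which traces the boundary of the unbounded component of the
complement of the cluster of `v`, scaled by `1 / n`: it starts at a vertex `σ.1` of the cluster, with
the face `face σ` in the unbounded component on its left, and at each step it follows the next edge
(in clockwise order) if this edge is open, and turns clockwise around the vertex otherwise (`nxt`),
until it comes back to the initial state for the first time. -/
def IsTrace (n : ℕ) (F : Finset Edge) (v : ℤ × ℤ) (c : Curve) : Prop :=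
  ∃ (σ : St) (N : ℕ), 0 < N ∧ σ.1 ∈ cluster F v ∧ Plain.Outer F v (face σ) ∧
    orb (↑F) σ N = σ ∧ (∀ j, 0 < j → j < N → orb (↑F) σ j ≠ σ) ∧
    c.path = poly (fun j => pt n (orb (↑F) σ j).1) N

/-- `γ` can be cut into at most `m` pieces of diameter at most `r`. -/
def Cut (m : ℕ) (r : ℝ) (γ : C(unitInterval, ℂ)) : Prop :=
  ∃ (k : ℕ) (t : ℕ → ℝ), 0 < k ∧ k ≤ m ∧ t 0 = 0 ∧ t k = 1 ∧ (∀ i < k, t i < t (i + 1)) ∧
    ∀ i < k, ∀ s s' : unitInterval, t i ≤ (s : ℝ) → (s : ℝ) ≤ t (i + 1) → t i ≤ (s' : ℝ) →
      (s' : ℝ) ≤ t (i + 1) → dist (γ s) (γ s') ≤ r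

open Classical in
/-- Number of strands of width `3 a` which start on the lines `x = b + i a`. -/
noncomputable def NS (n a : ℕ) (b c : ℤ) (F : Finset Edge) : ℕ :=
  ((Finset.range (n / a + 2) ×ˢ Finset.Icc c (c + n)).filter (fun x : ℕ × ℤ =>
    ∃ (Y : ℤ) (T : ℕ), Strand (↑F : Set Edge) (b + x.1 * a) x.2 (b + x.1 * a + 3 * a) Y T)).card

/-- The same for the four directions. -/
noncomputable def N4 (n a : ℕ) (F : Finset Edge) : ℕ :=
  NS n a 0 0 F + NS n a (-n) 0 (rM F) + NS n a (-n) (-n) (rM (rM F)) +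
    NS n a 0 (-n) (rM (rM (rM F)))

end H342T
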