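import Pool.Agent.H342R3.Tig.Stubs
import Pool.Agent.H984R3.Per.PerBig
import Pool.Agent.H342R3.Lim.CPT

/-! T-EXI (helper541): existence of a tracing path. -/

namespace H342T

open H342L H342P H342P.Plain H984P MeasureTheory TopologicalSpace Filter Topology
open scoped ENNReal

theorem t_EXI : St_EXI := by
  intro n F v _ hF hv
  have hF' : F ⊆ H974.RE 0 n 0 n := by
    rw [← edges_eq]
    exact hF
  have hbox : ∀ w, H974.Reach (↑F : Set Edge) v w → w ∈ box n := fun w hw =>
    CPT_box hF hv ((mem_cluster F v w).2 hw)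
  -- a leftmost vertex
  obtain ⟨vL, hvL, hleft⟩ : ∃ vL, H974.Reach (↑F : Set Edge) v vL ∧
      ∀ w, H974.Reach (↑F : Set Edge) v w → vL.1 ≤ w.1 := by
    classical
    have hne : ∃ k : ℕ, ∃ w, H974.Reach (↑F : Set Edge) v w ∧ w.1 = k := by
      have h3 := hbox v (H974.Reach.refl _ _)
      unfold box at h3
      rw [Finset.mem_product, Finset.mem_Icc, Finset.mem_Icc] at h3
      exact ⟨v.1.toNat, v, H974.Reach.refl _ _, by omega⟩
    obtain ⟨w, hw, hwk⟩ := Nat.find_spec hne
    refine ⟨w, hw, fun w' hw' => ?_⟩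
    have h3 := hbox w' hw'
    unfold box at h3
    rw [Finset.mem_product, Finset.mem_Icc, Finset.mem_Icc] at h3
    have h4 : Nat.find hne ≤ w'.1.toNat := Nat.find_min' hne ⟨w', hw', by omega⟩
    omega
  have hvLbox := hbox vL hvL
  unfold box at hvLbox
  rw [Finset.mem_product, Finset.mem_Icc, Finset.mem_Icc] at hvLbox
  set σ : St := (vL, .nw) with hσ
  have hleft' : ∀ w, H974.Reach (↑F : Set Edge) σ.1 w → σ.1.1 ≤ w.1 := by
    intro w hw
    exact hleft w (hvL.trans hw)
  have hout := outer_left hF' (σ := σ) rfl hleft' hvLbox.1.1 hvLbox.2.1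
  have hEC : EC (↑F : Set Edge) v = EC (↑F) vL := by
    unfold EC
    ext e
    constructor
    · rintro ⟨he, h3⟩
      exact ⟨he, hvL.symm.trans h3⟩
    · rintro ⟨he, h3⟩
      exact ⟨he, hvL.trans h3⟩
  have hout' : Plain.Outer F v (face σ) := by
    rw [outer_iff]
    unfold H342P.Outer at hout ⊢
    rw [hEC]
    exact hout
  classical
  have hper := P17.periodic F σ
  refine ⟨⟨poly (fun j => pt n (orb (↑F) σ j).1) (Nat.find hper)⟩, σ, Nat.find hper,
    (Nat.find_spec hper).1, (mem_cluster F v vL).2 hvL, hout', (Nat.find_spec hper).2, ?_, rfl⟩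
  intro j hj hjN he
  exact Nat.find_min hper hjN ⟨hj, he⟩

end H342T
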