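import Pool.Agent.H342R3.Tig.Stubs
import Pool.Agent.H342R3.Lim.CPT
import Pool.Agent.H984R3.Per.FinalSharp

/-!
Assembly: tightness of the laws of the tracing path.
-/

namespace H342T

open H342L H342P H342P.Plain H984P MeasureTheory TopologicalSpace Filter Topology
open scoped ENNReal

theorem Cut.mono {m m' : ℕ} {r r' : ℝ} {γ : C(unitInterval, ℂ)} (h : Cut m r γ) (hm : m ≤ m')
    (hr : r ≤ r') : Cut m' r' γ := by
  obtain ⟨k, t, h1, h2, h3, h4, h5, h6⟩ := h
  exact ⟨k, t, h1, h2.trans hm, h3, h4, h5, fun i hi s s' a b c d => (h6 i hi s s' a b c d).trans hr⟩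

/-- The states of a minimal period are different. -/
theorem orb_inj {F : Set Edge} {σ : St} {N : ℕ} (h2 : ∀ j, 0 < j → j < N → orb F σ j ≠ σ)
    {i j : ℕ} (hi : i < N) (hj : j < N) (h : orb F σ i = orb F σ j) : i = j := by
  have key : ∀ i j : ℕ, i < j → j < N → orb F σ i = orb F σ j → False := by
    intro i j hij hj h
    refine h2 (j - i) (by omega) (by omega) ?_
    have h1 : (nxt F)^[i] ((nxt F)^[j - i] σ) = (nxt F)^[i] σ := by
      rw [← Function.iterate_add_apply]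
      have : i + (j - i) = j := by omega
      rw [this]
      exact h.symm
    exact ((nxt_bij F).injective.iterate i) h1
  rcases Nat.lt_trichotomy i j with h3 | h3 | h3
  · exact (key i j h3 hj h).elim
  · exact h3
  · exact (key j i h3 hi h.symm).elim

theorem period_le {n : ℕ} {F : Set Edge} {σ : St} {N : ℕ} (hbox : ∀ s, (orb F σ s).1 ∈ box n)
    (h2 : ∀ j, 0 < j → j < N → orb F σ j ≠ σ) : N ≤ 4 * (n + 1) ^ 2 := by
  classical
  have h3 : (Finset.range N).card ≤ ((box n) ×ˢ (Finset.univ : Finset Q4)).card := by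
    apply Finset.card_le_card_of_injOn (fun j => orb F σ j)
    · intro j _
      simp only [Finset.coe_product, Set.mem_prod, Finset.mem_coe, Finset.mem_univ, and_true]
      exact hbox j
    · intro i hi j hj hij
      exact orb_inj h2 (Finset.mem_range.mp (Finset.mem_coe.mp hi))
        (Finset.mem_range.mp (Finset.mem_coe.mp hj)) hij
  rw [Finset.card_range, Finset.card_product] at h3
  have h4 : (box n).card = (n + 1) * (n + 1) := by
    unfold box
    rw [Finset.card_product, Int.card_Icc]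
    have : (n + 1 - 0 : ℤ).toNat = n + 1 := by omega
    rw [this]
  have h5 : (Finset.univ : Finset Q4).card = 4 := rfl
  rw [h4, h5] at h3
  nlinarith

theorem pt_step {n : ℕ} (hn : 0 < n) (F : Set Edge) (σ : St) (j : ℕ) :
    dist (pt n (orb F σ j).1) (pt n (orb F σ (j + 1)).1) ≤ 1 := by
  have hn' : (1:ℝ) ≤ n := by exact_mod_cast hn
  have key : ∀ u w : ℤ × ℤ, ((u.1 = w.1 ∧ |u.2 - w.2| ≤ 1) ∨ (u.2 = w.2 ∧ |u.1 - w.1| ≤ 1)) →
      dist (pt n u) (pt n w) ≤ 1 := by
    intro u w h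
    rw [dist_eq_norm]
    refine (Complex.norm_le_abs_re_add_abs_im _).trans ?_
    have e1 : (pt n u - pt n w).re = ((u.1 - w.1 : ℤ) : ℝ) / n := by
      unfold pt
      rw [Complex.sub_re]
      push_cast
      ring
    have e2 : (pt n u - pt n w).im = ((u.2 - w.2 : ℤ) : ℝ) / n := by
      unfold pt
      rw [Complex.sub_im]
      push_cast
      ring
    rw [e1, e2, abs_div, abs_div, Nat.abs_cast, ← Int.cast_abs, ← Int.cast_abs]
    rcases h with ⟨h1, h2⟩ | ⟨h1, h2⟩
    · rw [h1, sub_self, abs_zero, Int.cast_zero, zero_div, zero_add, div_le_one (by linarith)]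
      have : ((|u.2 - w.2| : ℤ) : ℝ) ≤ 1 := by exact_mod_cast h2
      linarith
    · rw [h1, sub_self, abs_zero, Int.cast_zero, zero_div, add_zero, div_le_one (by linarith)]
      have : ((|u.1 - w.1| : ℤ) : ℝ) ≤ 1 := by exact_mod_cast h2
      linarith
  apply key
  rw [orb_succ]
  generalize orb F σ j = τ
  obtain ⟨⟨x, y⟩, q⟩ := τ
  by_cases h : ae ((x, y), q) ∈ F
  · rw [nxt_open h]
    cases q <;> simp
  · rw [nxt_closed h]
    cases q <;> simp

section
variable (hR : St_RNG) (hG : St_GRD) (hS : St_SML)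

include hR hG hS in
/-- deterministic part -/
theorem trace_cut {n : ℕ} {F : Finset Edge} {v : ℤ × ℤ} {c : Curve} (hn : 0 < n) (hF : F ⊆ edges n)
    (hv : v ∈ box n) (hc : IsTrace n F v c) :
    (∀ s, c.path s ∈ csq) ∧ (∀ j : ℕ, Cut (4 * (n + 1) ^ 2 * (j + 1)) (1 / ((j:ℝ) + 1)) c.path) ∧
    (∀ a : ℕ, 1 ≤ a → Cut (N4 n a F + 1) ((12 * a + 6) / n) c.path) := by
  have hrng := (hR n F v c hn hF hv hc).2
  refine ⟨?_, ?_, ?_⟩
  · intro s
    have h1 : c.path s ∈ outerBoundary n F v := by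
      rw [← hrng]
      exact ⟨s, rfl⟩
    exact (t_CPT n F v).2.2 hn hF hv _ h1
  · intro j
    obtain ⟨σ, N, hN, hσ, ho, hp, hmin, hpath⟩ := hc
    have hbox : ∀ s, (orb (↑F) σ s).1 ∈ box n := by
      intro s
      apply CPT_box hF hv
      rw [mem_cluster] at hσ ⊢
      exact hσ.trans (pb_reach _ _ _)
    have h1 := hS (fun j => pt n (orb (↑F) σ j).1) N (1 / ((j:ℝ) + 1)) hN (by positivity)
      (fun j => pt_step hn _ _ _)
    rw [hpath]
    refine h1.mono ?_ le_rfl
    have h2 : ⌈1 / (1 / ((j:ℝ) + 1))⌉₊ = j + 1 := by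
      rw [one_div_one_div]
      exact_mod_cast Nat.ceil_natCast (j + 1)
    rw [h2]
    exact Nat.mul_le_mul_right _ (period_le hbox hmin)
  · intro a ha
    obtain ⟨σ, N, hN, hσ, ho, hp, hmin, hpath⟩ := hc
    rw [hpath]
    refine hG n a F σ N hn ha ?_ hN hp hmin
    intro s
    have : (orb (↑F) σ s).1 ∈ box n := by
      apply CPT_box hF hv
      rw [mem_cluster] at hσ ⊢
      exact hσ.trans (pb_reach _ _ _)
    unfold box at this
    rw [Finset.mem_product, Finset.mem_Icc, Finset.mem_Icc] at this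
    unfold H974.inR
    omega

end

section
variable (hR : St_RNG) (hG : St_GRD) (hS : St_SML) (hC : St_CNT) (hA : St_ARZ)
  (hK : St_PRK)
  {sel : (n : ℕ) → Finset Edge → ℤ × ℤ}
  (hsel : ∀ n F, 0 < n → F ⊆ edges n → Largest n F (sel n F))
  {γ : (n : ℕ) → Finset Edge → Curve}
  (hγ : ∀ n F, 0 < n → F ⊆ edges n → IsTrace n F (sel n F) (γ n F))

include hR hG hS hC hA hsel hγ in
theorem tight_K {ε : ℝ} (hε : 0 < ε) : ∃ K : Set Curve, IsCompact K ∧ IsClosed K ∧
    ∀ n : ℕ, 0 < n → (lawOf n (γ n) : Measure Curve) Kᶜ ≤ ENNReal.ofReal ε := by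
  classical
  have hok : H974.Ok (fun _ : Edge => (1/2:ℝ)) := fun _ => ⟨by norm_num, by norm_num⟩
  obtain ⟨C, hC0, hcnt⟩ := hC
  set n' : ℕ → ℕ := fun j => 1000 * (j + 1) with hn'
  set m' : ℕ → ℕ := fun j => ⌈C * (49 * ((j:ℝ) + 1)) ^ 2 * 2 ^ (j + 1) / ε⌉₊ + 1 with hm'
  set D : ℕ → ℕ := fun j => m' j + 4 * (n' j + 1) ^ 2 * (j + 1) with hD
  obtain ⟨K, hKc, hKcl, hmem⟩ := hA D
  refine ⟨K, hKc, hKcl, fun n hn => ?_⟩
  rw [lawOf_apply _ _ hKcl.isOpen_compl.measurableSet]
  apply ENNReal.ofReal_le_ofReal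
  -- only the scales with n' j ≤ n matter
  have hbad : prob n (fun F => γ n F ∈ Kᶜ) ≤ H974.Pr (fun _ => (1/2:ℝ)) (H974.RE 0 n 0 n)
      (fun F => ∃ j ∈ (Finset.range n).filter (fun j => n' j ≤ n), m' j ≤ N4 n (n / (24 * (j + 1))) F) := by
    apply prob_le_of_pr
    intro F hF hnot
    by_contra hcon
    apply hnot
    obtain ⟨h1, h2, h3⟩ := trace_cut hR hG hS hn hF (hsel n F hn hF).1 (hγ n F hn hF)
    apply hmem _ h1
    intro j
    by_cases hj : n' j ≤ n
    · have hjn : j ∈ (Finset.range n).filter (fun j => n' j ≤ n) := by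
        rw [Finset.mem_filter, Finset.mem_range]
        refine ⟨?_, hj⟩
        simp only [hn'] at hj
        omega
      have h4 : N4 n (n / (24 * (j + 1))) F < m' j := by
        by_contra h5
        exact hcon ⟨j, hjn, not_lt.mp h5⟩
      simp only [hn'] at hj
      have hkpos : 0 < 24 * (j + 1) := by omega
      have ha : 1 ≤ n / (24 * (j + 1)) := by
        rw [Nat.le_div_iff_mul_le hkpos]
        omega
      refine (h3 _ ha).mono (by simp only [hD]; omega) ?_
      have hnR : (0:ℝ) < n := by exact_mod_cast hn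
      have hj0 : (0:ℝ) < (j:ℝ) + 1 := by positivity
      have hnj : (1000:ℝ) * ((j:ℝ) + 1) ≤ n := by exact_mod_cast hj
      have h6 : ((n / (24 * (j + 1)) : ℕ) : ℝ) ≤ (n:ℝ) / (24 * ((j:ℝ) + 1)) := by
        have := Nat.cast_div_le (α := ℝ) (m := n) (n := 24 * (j + 1))
        push_cast at this
        exact this
      rw [le_div_iff₀ (by positivity)] at h6
      rw [div_le_div_iff₀ hnR hj0]
      nlinarith
    · refine (h2 j).mono ?_ le_rfl
      have h5 : n + 1 ≤ n' j + 1 := by omega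
      have h6 : 4 * (n + 1) ^ 2 * (j + 1) ≤ 4 * (n' j + 1) ^ 2 * (j + 1) := by gcongr
      simp only [hD]
      omega
  refine hbad.trans ((H974.Pr_exists_le hok _ _ _).trans ?_)
  have hterm : ∀ j ∈ (Finset.range n).filter (fun j => n' j ≤ n),
      H974.Pr (fun _ => (1/2:ℝ)) (H974.RE 0 n 0 n)
        (fun F => m' j ≤ N4 n (n / (24 * (j + 1))) F) ≤ ε * (1/2) ^ (j + 1) := by
    intro j hj
    rw [Finset.mem_filter, Finset.mem_range] at hj
    obtain ⟨-, hj⟩ := hj
    simp only [hn'] at hj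
    have hkpos : 0 < 24 * (j + 1) := by omega
    have ha : 5 ≤ n / (24 * (j + 1)) := by
      rw [Nat.le_div_iff_mul_le hkpos]
      omega
    refine (hcnt n _ (m' j) ha (by simp only [hm']; omega)).trans ?_
    obtain ⟨h1, -⟩ := fs_div hkpos (show 2 * (24 * (j + 1)) ≤ n by omega)
    set a : ℕ := n / (24 * (j + 1)) with haa
    have haR : (5:ℝ) ≤ a := by exact_mod_cast ha
    have hj0 : (0:ℝ) < (j:ℝ) + 1 := by positivity
    have h2 : (n:ℝ) / a ≤ 48 * ((j:ℝ) + 1) := by
      rw [div_le_iff₀ (by linarith)]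
      push_cast at h1
      rw [div_le_iff₀ (by positivity)] at h1
      linarith
    have h3 : ((n:ℝ) / a + 1) ^ 2 ≤ (49 * ((j:ℝ) + 1)) ^ 2 := by
      apply pow_le_pow_left₀ (by positivity)
      have : (0:ℝ) ≤ j := by positivity
      linarith
    have hm0 : (0:ℝ) < (m' j : ℝ) := by
      have : 0 < m' j := by simp only [hm']; omega
      exact_mod_cast this
    rw [div_le_iff₀ hm0]
    have h4 : C * (49 * ((j:ℝ) + 1)) ^ 2 * 2 ^ (j + 1) / ε ≤ (m' j : ℝ) := by
      simp only [hm']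
      push_cast
      have := Nat.le_ceil (C * (49 * ((j:ℝ) + 1)) ^ 2 * 2 ^ (j + 1) / ε)
      linarith
    rw [div_le_iff₀ hε] at h4
    have h5 : (0:ℝ) < 2 ^ (j + 1) := by positivity
    calc C * ((n:ℝ) / a + 1) ^ 2 ≤ C * (49 * ((j:ℝ) + 1)) ^ 2 :=
          mul_le_mul_of_nonneg_left h3 hC0.le
      _ = (C * (49 * ((j:ℝ) + 1)) ^ 2 * 2 ^ (j + 1)) * (1/2) ^ (j + 1) := by
          rw [one_div, inv_pow, mul_assoc _ ((2:ℝ) ^ (j + 1)), mul_inv_cancel₀ h5.ne', mul_one]
      _ ≤ ((m' j : ℝ) * ε) * (1/2) ^ (j + 1) :=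
          mul_le_mul_of_nonneg_right h4 (by positivity)
      _ = ε * (1/2) ^ (j + 1) * (m' j : ℝ) := by ring
  refine (Finset.sum_le_sum hterm).trans ?_
  rw [← Finset.mul_sum]
  have h6 : ∑ j ∈ (Finset.range n).filter (fun j => n' j ≤ n), (1/2:ℝ) ^ (j + 1) ≤ 1 := by
    refine (Finset.sum_le_sum_of_subset_of_nonneg (Finset.filter_subset _ _)
      (fun _ _ _ => by positivity)).trans ?_
    have h7 : ∀ n : ℕ, ∑ j ∈ Finset.range n, (1/2:ℝ) ^ (j + 1) = 1 - (1/2) ^ n := by
      intro n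
      induction n with
      | zero => simp
      | succ n ih => rw [Finset.sum_range_succ, ih, pow_succ]; ring
    rw [h7]
    have : (0:ℝ) ≤ (1/2) ^ n := by positivity
    linarith
  nlinarith

include hR hG hS hC hA hK hsel hγ in
/-- Every sequence of scales has a subsequence along which the laws of the tracing path converge. -/
theorem tight_curves (k : ℕ → ℕ) (hk : Tendsto k atTop atTop) :
    ∃ (φ : ℕ → ℕ) (μ : ProbabilityMeasure Curve), StrictMono φ ∧
      Tendsto (fun i => lawOf (k (φ i)) (γ (k (φ i)))) atTop (𝓝 μ) := by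
  obtain ⟨N, hN⟩ := (tendsto_atTop.mp hk 1).exists_forall_of_atTop
  obtain ⟨φ, μ, hφ, hlim⟩ := hK (fun i => lawOf (k (i + N)) (γ (k (i + N)))) (by
    intro ε hε
    obtain ⟨K, h1, h2, h3⟩ := tight_K hR hG hS hC hA hsel hγ hε
    exact ⟨K, h1, h2, fun i => h3 _ (hN (i + N) (by omega))⟩)
  exact ⟨fun i => φ i + N, μ, fun i j hij => by have := hφ hij; simp only; omega, hlim⟩

end

end H342T
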