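import Pool.Agent.H342R3.Tig.Stubs
import Pool.Agent.H984R3.Per.Rot
import Pool.Agent.H984R3.Per.ExitS2

/-! T-GRD (helper551): greedy cutting. -/

namespace H342T

open H342L H342P H342P.Plain H984P MeasureTheory TopologicalSpace Filter Topology
open scoped ENNReal

/-- Greedy times. -/
theorem GRD_greedy (P : ℕ → ℕ → Prop) (N : ℕ) (hP : ∀ s, ¬ P s s) : ∀ (m s0 : ℕ), s0 ≤ N →
    N - s0 ≤ m → ∃ (k : ℕ) (s : ℕ → ℕ), s 0 = s0 ∧
      (∀ i < k, s i < s (i + 1) ∧ P (s i) (s (i + 1)) ∧
        ∀ t, s i ≤ t → t < s (i + 1) → ¬ P (s i) t) ∧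
      (∀ t, s k ≤ t → t ≤ N → ¬ P (s k) t) ∧ s k ≤ N := by
  classical
  intro m
  induction m with
  | zero =>
    intro s0 h0 h1
    refine ⟨0, fun _ => s0, rfl, by simp, ?_, h0⟩
    intro t (ht : s0 ≤ t) htN
    have : t = s0 := by omega
    rw [this]
    exact hP s0
  | succ m ih =>
    intro s0 h0 h1
    by_cases hex : ∃ t, s0 ≤ t ∧ t ≤ N ∧ P s0 t
    · obtain ⟨h2, h3, h4⟩ := Nat.find_spec hex
      have h5 : Nat.find hex ≠ s0 := by
        intro h
        rw [h] at h4
        exact hP s0 h4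
      obtain ⟨k, s, hs0, hs1, hs2, hs3⟩ := ih (Nat.find hex) h3 (by omega)
      refine ⟨k + 1, fun i => if i = 0 then s0 else s (i - 1), by simp, ?_, ?_, ?_⟩
      · intro i hi
        rcases Nat.eq_zero_or_pos i with rfl | hpos
        · simp only [if_true, zero_add, one_ne_zero, if_false, Nat.sub_self, hs0]
          refine ⟨by omega, h4, ?_⟩
          intro t ht1 ht2 hPt
          exact Nat.find_min hex ht2 ⟨ht1, by omega, hPt⟩
        · obtain ⟨j, rfl⟩ : ∃ j, i = j + 1 := ⟨i - 1, by omega⟩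
          simpa using hs1 j (by omega)
      · simpa using hs2
      · simpa using hs3
    · refine ⟨0, fun _ => s0, rfl, by simp, ?_, h0⟩
      intro t ht htN hPt
      exact hex ⟨t, ht, htN, hPt⟩

/-- The strand inside a piece which ends to the right. -/
theorem GRD_right {n a : ℕ} (ha : 1 ≤ a) {b c : ℤ} {F : Finset Edge} {σ : St} {t : ℕ}
    (hin : ∀ s, H974.inR b (b + n) c (c + n) (orb (↑F) σ s).1)
    (hf : ∀ s < t, ¬ Far σ.1 (4 * a + 2) (orb (↑F) σ s).1)
    (hx : (orb (↑F) σ t).1.1 = σ.1.1 + (4 * a + 2)) :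
    ∃ x ∈ (Finset.range (n / a + 2) ×ˢ Finset.Icc c (c + n)), ∃ s' < t,
      orb (↑F) σ s' = st0 (b + x.1 * a) x.2 ∧
      ∃ (Y : ℤ) (T : ℕ), Strand (↑F : Set Edge) (b + x.1 * a) x.2 (b + x.1 * a + 3 * a) Y T := by
  have ha1 : (1:ℤ) ≤ a := by exact_mod_cast ha
  have h0 := hin 0
  rw [orb_zero] at h0
  obtain ⟨i, hi, hA1, hA2⟩ := LS_line (n := n) (a := a) ha (b := b) (x := σ.1.1) h0.1.1 h0.1.2
  obtain ⟨y0, Y, T, s0, hs0, hst, hT, _⟩ := exit_strand2 (F := ↑F) hf hx
    (A := b + (i:ℤ) * a) (X := b + (i:ℤ) * a + 3 * a) hA1 (by omega) (by omega)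
  have hT0 : T ≠ 0 := by
    rintro rfl
    have h1 := hst.tip
    rw [orb_zero] at h1
    have h2 := congrArg (fun τ : St => τ.1.1) h1
    simp only [st0] at h2
    omega
  have hb := hin s0
  rw [hs0] at hb
  refine ⟨(i, y0), ?_, s0, by omega, hs0, Y, T, hst⟩
  rw [Finset.mem_product, Finset.mem_Icc]
  exact ⟨hi, hb.2⟩

/-- The number of pieces of one kind. -/
theorem GRD_count {n a : ℕ} {b c : ℤ} {F : Finset Edge} {g : ℕ → St} {N k : ℕ} {s : ℕ → ℕ}
    (hs : ∀ i < k, s i < s (i + 1)) (hsN : s k ≤ N)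
    (hg : ∀ u v, u < N → v < N → g u = g v → u = v) (I : Finset ℕ)
    (hI : ∀ i ∈ I, i < k ∧ ∃ x ∈ (Finset.range (n / a + 2) ×ˢ Finset.Icc c (c + n)), ∃ s',
      s i ≤ s' ∧ s' < s (i + 1) ∧ g s' = st0 (b + x.1 * a) x.2 ∧
      ∃ (Y : ℤ) (T : ℕ), Strand (↑F : Set Edge) (b + x.1 * a) x.2 (b + x.1 * a + 3 * a) Y T) :
    I.card ≤ NS n a b c F := by
  classical
  have hmono : ∀ i j, i ≤ j → j ≤ k → s i ≤ s j := by
    intro i j hij
    induction j, hij using Nat.le_induction with
    | base => intro _; exact le_rfl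
    | succ j hij ih =>
      intro hjk
      exact (ih (by omega)).trans (hs j (by omega)).le
  choose! x hx s' h1 h2 h3 h4 using fun i hi => (hI i hi).2
  unfold NS
  refine Finset.card_le_card_of_injOn x ?_ ?_
  · intro i hi
    rw [Finset.mem_coe] at hi
    rw [Finset.mem_coe, Finset.mem_filter]
    exact ⟨hx i hi, h4 i hi⟩
  · intro i hi j hj hij
    rw [Finset.mem_coe] at hi hj
    have e : g (s' i) = g (s' j) := by rw [h3 i hi, h3 j hj, hij]
    have hik := (hI i hi).1
    have hjk := (hI j hj).1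
    have bi : s (i + 1) ≤ N := (hmono (i + 1) k (by omega) le_rfl).trans hsN
    have bj : s (j + 1) ≤ N := (hmono (j + 1) k (by omega) le_rfl).trans hsN
    have a1 := h1 i hi
    have a2 := h2 i hi
    have a3 := h1 j hj
    have a4 := h2 j hj
    have e2 := hg _ _ (by omega) (by omega) e
    rcases lt_trichotomy i j with h | h | h
    · exfalso
      have := hmono (i + 1) j (by omega) (by omega)
      omega
    · exact h
    · exfalso
      have := hmono (j + 1) i (by omega) (by omega)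
      omega

theorem GRD_mul {t x y z ρ : ℝ} (ht0 : 0 ≤ t) (ht1 : t ≤ 1) (h1 : |x - z| ≤ ρ)
    (h2 : |y - z| ≤ ρ) : |x + t * (y - x) - z| ≤ ρ := by
  rw [abs_le] at h1 h2 ⊢
  constructor
  · nlinarith
  · nlinarith

/-- A path whose pieces stay close to their first points can be cut. -/
theorem GRD_cut (hP : St_POL) {f : ℕ → ℂ} {N K : ℕ} {ρ r : ℝ} (hN : 0 < N) (s : ℕ → ℕ)
    (hK : 0 < K) (h0 : s 0 = 0) (hKN : s K = N) (hlt : ∀ i < K, s i < s (i + 1))
    (hd : ∀ i < K, ∀ u, s i ≤ u → u ≤ s (i + 1) →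
      |(f u).re - (f (s i)).re| ≤ ρ ∧ |(f u).im - (f (s i)).im| ≤ ρ) {m : ℕ} (hm : K ≤ m)
    (hρ : 0 ≤ ρ) (hr : 3 * ρ ≤ r) : Cut m r (poly f N) := by
  obtain ⟨_, _, _, hpol⟩ := hP f N hN
  have hN0 : (0:ℝ) < N := by exact_mod_cast hN
  have hmono : ∀ i j, i ≤ j → j ≤ K → s i ≤ s j := by
    intro i j hij
    induction j, hij using Nat.le_induction with
    | base => intro _; exact le_rfl
    | succ j hij ih =>
      intro hjk
      exact (ih (by omega)).trans (hlt j (by omega)).le
  refine ⟨K, fun i => (s i : ℝ) / N, hK, hm, by simp [h0], ?_, ?_, ?_⟩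
  · show (s K : ℝ) / N = 1
    rw [hKN, div_self hN0.ne']
  · intro i hi
    have : ((s i : ℕ) : ℝ) < s (i + 1) := by exact_mod_cast hlt i hi
    exact div_lt_div_of_pos_right this hN0
  · intro i hi
    have hiN : s (i + 1) ≤ N := by
      rw [← hKN]
      exact hmono _ _ (by omega) le_rfl
    have key : ∀ t : unitInterval, (s i : ℝ) / N ≤ (t : ℝ) → (t : ℝ) ≤ (s (i + 1) : ℝ) / N →
        |(poly f N t).re - (f (s i)).re| ≤ ρ ∧ |(poly f N t).im - (f (s i)).im| ≤ ρ := by
      intro t ht1 ht2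
      rw [div_le_iff₀ hN0] at ht1
      rw [le_div_iff₀ hN0] at ht2
      have hNt : 0 ≤ (N : ℝ) * (t:ℝ) := mul_nonneg hN0.le t.2.1
      obtain ⟨j, hj1, hj2, hj3, hj4⟩ : ∃ j : ℕ, s i ≤ j ∧ j < s (i + 1) ∧ (j : ℝ) ≤ N * (t:ℝ) ∧
          N * (t:ℝ) ≤ j + 1 := by
        by_cases hc : (N : ℝ) * (t:ℝ) < s (i + 1)
        · refine ⟨⌊(N : ℝ) * (t:ℝ)⌋₊, ?_, ?_, ?_, ?_⟩
          · apply Nat.le_floor
            rw [mul_comm]
            exact ht1
          · rw [Nat.floor_lt hNt]
            exact hc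
          · exact Nat.floor_le hNt
          · exact (Nat.lt_floor_add_one _).le
        · have hl := hlt i hi
          refine ⟨s (i + 1) - 1, by omega, by omega, ?_, ?_⟩
          · rw [Nat.cast_sub (by omega)]
            push_cast
            linarith
          · rw [Nat.cast_sub (by omega)]
            push_cast
            linarith
      have hp := hpol j (by omega) t hj3 hj4
      have d1 := hd i hi j hj1 hj2.le
      have d2 := hd i hi (j + 1) (by omega) hj2
      have e1 : 0 ≤ N * (t:ℝ) - j := by linarith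
      have e2 : N * (t:ℝ) - j ≤ 1 := by linarith
      rw [hp]
      constructor
      · rw [Complex.add_re, Complex.re_ofReal_mul, Complex.sub_re]
        exact GRD_mul e1 e2 d1.1 d2.1
      · rw [Complex.add_im, Complex.im_ofReal_mul, Complex.sub_im]
        exact GRD_mul e1 e2 d1.2 d2.2
    intro t t' h1 h2 h3 h4
    obtain ⟨k1, k2⟩ := key t h1 h2
    obtain ⟨k3, k4⟩ := key t' h3 h4
    rw [abs_le] at k1 k2 k3 k4
    rw [Complex.dist_eq]
    refine le_trans ?_ hr
    have hre : |(poly f N t - poly f N t').re| ≤ 2 * ρ := by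
      rw [Complex.sub_re, abs_le]
      constructor <;> linarith
    have him : |(poly f N t - poly f N t').im| ≤ 2 * ρ := by
      rw [Complex.sub_im, abs_le]
      constructor <;> linarith
    apply abs_le_of_sq_le_sq' _ (by positivity) |>.2
    rw [Complex.sq_norm, Complex.normSq_apply]
    rw [abs_le] at hre him
    nlinarith [hre.1, hre.2, him.1, him.2]

/-- The piece `i` contains a strand of the configuration `F` starting at a state `g s'`. -/
def GRD_D (n a : ℕ) (b c : ℤ) (F : Finset Edge) (g : ℕ → St) (s : ℕ → ℕ) (i : ℕ) : Prop :=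
  ∃ x ∈ (Finset.range (n / a + 2) ×ˢ Finset.Icc c (c + n)), ∃ s',
      s i ≤ s' ∧ s' < s (i + 1) ∧ g s' = st0 (b + x.1 * a) x.2 ∧
      ∃ (Y : ℤ) (T : ℕ), Strand (↑F : Set Edge) (b + x.1 * a) x.2 (b + x.1 * a + 3 * a) Y T

theorem GRD_dir {n a : ℕ} (ha : 1 ≤ a) {b c : ℤ} {F : Finset Edge} {τ : St} {g : ℕ → St}
    {s : ℕ → ℕ} {i t : ℕ} (ht : t ≤ s (i + 1) - s i)
    (hg : ∀ u, orb (↑F) τ u = g (u + s i))
    (hin : ∀ u, H974.inR b (b + n) c (c + n) (g u).1)
    (hf : ∀ u < t, ¬ Far τ.1 (4 * a + 2) (orb (↑F) τ u).1)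
    (hx : (orb (↑F) τ t).1.1 = τ.1.1 + (4 * a + 2)) : GRD_D n a b c F g s i := by
  obtain ⟨x, hx, s', hs', h1, h2⟩ := GRD_right ha (fun u => by rw [hg]; exact hin _) hf hx
  exact ⟨x, hx, s' + s i, by omega, by omega, by rw [← hg]; exact h1, h2⟩

theorem t_GRD (hP : St_POL) : St_GRD := by
  classical
  intro n a F σ N hn ha hin hN hper hmin
  have hdist : ∀ u v, u < N → v < N → orb (↑F : Set Edge) σ u = orb (↑F) σ v → u = v := by
    have key : ∀ u v, u ≤ v → v < N → orb (↑F : Set Edge) σ u = orb (↑F) σ v → u = v := by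
      intro u v huv hv h
      have hinj : Function.Injective ((nxt (↑F : Set Edge))^[u]) := (nxt_bij _).1.iterate u
      have e : orb (↑F : Set Edge) σ v = orb (↑F : Set Edge) (orb (↑F : Set Edge) σ (v - u)) u := by
        rw [← orb_add]
        congr 1
        omega
      rw [e] at h
      have h2 : σ = orb (↑F : Set Edge) σ (v - u) := hinj h
      by_contra hne
      exact hmin (v - u) (by omega) (by omega) h2.symm
    intro u v hu hv h
    rcases le_total u v with h1 | h1
    · exact key u v h1 hv h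
    · exact (key v u h1 hu h.symm).symm
  have ha1 : (1:ℤ) ≤ a := by exact_mod_cast ha
  obtain ⟨k, s, hs0, hs1, hs2, hs3⟩ := GRD_greedy
    (fun u v => Far (orb (↑F : Set Edge) σ u).1 (4 * a + 2) (orb (↑F) σ v).1) N
    (by intro u; unfold Far; omega) N 0 (Nat.zero_le _) (by omega)
  have hrS : Function.Injective rS := by
    intro x y h
    unfold rS at h
    rw [Prod.mk.injEq] at h
    obtain ⟨h1, h2⟩ := h
    apply Prod.ext (rV.injective h1)
    revert h2
    cases x.2 <;> cases y.2 <;> simp [rQ]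
  -- the four kinds of pieces
  have hcase : ∀ i < k, GRD_D n a 0 0 F (fun u => orb (↑F) σ u) s i ∨
      GRD_D n a (-n) 0 (rM F) (fun u => rS (orb (↑F) σ u)) s i ∨
      GRD_D n a (-n) (-n) (rM (rM F)) (fun u => rS (rS (orb (↑F) σ u))) s i ∨
      GRD_D n a 0 (-n) (rM (rM (rM F))) (fun u => rS (rS (rS (orb (↑F) σ u)))) s i := by
    intro i hi
    obtain ⟨h1, h2, _⟩ := hs1 i hi
    set τ := orb (↑F : Set Edge) σ (s i) with hτ
    have horb : ∀ u, orb (↑F : Set Edge) τ u = orb (↑F) σ (u + s i) := by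
      intro u
      rw [orb_add]
    have h3 : Far τ.1 (4 * a + 2) (orb (↑F : Set Edge) τ (s (i + 1) - s i)).1 := by
      rw [horb, Nat.sub_add_cancel h1.le]
      exact h2
    obtain ⟨t, ht, hf, hex⟩ := first_far2 (by omega) h3
    rcases hex with h | h | h | h
    · left
      refine GRD_dir ha ht horb ?_ hf h
      intro u
      simpa using hin u
    · right; right; right
      refine GRD_dir (τ := rS (rS (rS τ))) ha ht ?_ ?_ ?_ ?_
      · intro u
        rw [rot_orb, rot_orb, rot_orb, horb]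
      · intro u
        have := hin u
        simp only [H974.inR, rS, rV, Equiv.coe_fn_mk] at this ⊢
        omega
      · intro u hu
        rw [rot_orb, rot_orb, rot_orb]
        have := hf u hu
        simp only [Far, rS, rV, Equiv.coe_fn_mk] at this ⊢
        omega
      · rw [rot_orb, rot_orb, rot_orb]
        simp only [rS, rV, Equiv.coe_fn_mk]
        omega
    · right; right; left
      refine GRD_dir (τ := rS (rS τ)) ha ht ?_ ?_ ?_ ?_
      · intro u
        rw [rot_orb, rot_orb, horb]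
      · intro u
        have := hin u
        simp only [H974.inR, rS, rV, Equiv.coe_fn_mk] at this ⊢
        omega
      · intro u hu
        rw [rot_orb, rot_orb]
        have := hf u hu
        simp only [Far, rS, rV, Equiv.coe_fn_mk] at this ⊢
        omega
      · rw [rot_orb, rot_orb]
        simp only [rS, rV, Equiv.coe_fn_mk]
        omega
    · right; left
      refine GRD_dir (τ := rS τ) ha ht ?_ ?_ ?_ ?_
      · intro u
        rw [rot_orb, horb]
      · intro u
        have := hin u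
        simp only [H974.inR, rS, rV, Equiv.coe_fn_mk] at this ⊢
        omega
      · intro u hu
        rw [rot_orb]
        have := hf u hu
        simp only [Far, rS, rV, Equiv.coe_fn_mk] at this ⊢
        omega
      · rw [rot_orb]
        simp only [rS, rV, Equiv.coe_fn_mk]
        omega
  -- the number of pieces
  have hlt : ∀ i < k, s i < s (i + 1) := fun i hi => (hs1 i hi).1
  have hk : k ≤ N4 n a F := by
    have c0 := GRD_count (n := n) (a := a) (b := 0) (c := 0) (F := F) hlt hs3 hdist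
      ((Finset.range k).filter (fun i => GRD_D n a 0 0 F (fun u => orb (↑F) σ u) s i))
      (fun i hi => by
        rw [Finset.mem_filter, Finset.mem_range] at hi
        exact hi)
    have c1 := GRD_count (n := n) (a := a) (b := -n) (c := 0) (F := rM F)
      (g := fun u => rS (orb (↑F) σ u)) hlt hs3 (fun u v hu hv h => hdist u v hu hv (hrS h))
      ((Finset.range k).filter (fun i => GRD_D n a (-n) 0 (rM F) (fun u => rS (orb (↑F) σ u)) s i))
      (fun i hi => by
        rw [Finset.mem_filter, Finset.mem_range] at hi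
        exact hi)
    have c2 := GRD_count (n := n) (a := a) (b := -n) (c := -n) (F := rM (rM F))
      (g := fun u => rS (rS (orb (↑F) σ u))) hlt hs3
      (fun u v hu hv h => hdist u v hu hv (hrS (hrS h)))
      ((Finset.range k).filter (fun i => GRD_D n a (-n) (-n) (rM (rM F))
        (fun u => rS (rS (orb (↑F) σ u))) s i))
      (fun i hi => by
        rw [Finset.mem_filter, Finset.mem_range] at hi
        exact hi)
    have c3 := GRD_count (n := n) (a := a) (b := 0) (c := -n) (F := rM (rM (rM F)))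
      (g := fun u => rS (rS (rS (orb (↑F) σ u)))) hlt hs3
      (fun u v hu hv h => hdist u v hu hv (hrS (hrS (hrS h))))
      ((Finset.range k).filter (fun i => GRD_D n a 0 (-n) (rM (rM (rM F)))
        (fun u => rS (rS (rS (orb (↑F) σ u)))) s i))
      (fun i hi => by
        rw [Finset.mem_filter, Finset.mem_range] at hi
        exact hi)
    have hsub : Finset.range k ⊆
        (((Finset.range k).filter (fun i => GRD_D n a 0 0 F (fun u => orb (↑F) σ u) s i) ∪
        (Finset.range k).filter (fun i => GRD_D n a (-n) 0 (rM F) (fun u => rS (orb (↑F) σ u)) s i))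
        ∪ (Finset.range k).filter (fun i => GRD_D n a (-n) (-n) (rM (rM F))
        (fun u => rS (rS (orb (↑F) σ u))) s i)) ∪
        (Finset.range k).filter (fun i => GRD_D n a 0 (-n) (rM (rM (rM F)))
        (fun u => rS (rS (rS (orb (↑F) σ u)))) s i) := by
      intro i hi
      have h := hcase i (Finset.mem_range.1 hi)
      simp only [Finset.mem_union, Finset.mem_filter]
      tauto
    have h1 := Finset.card_le_card hsub
    rw [Finset.card_range] at h1
    have h2 := Finset.card_union_le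
      (((Finset.range k).filter (fun i => GRD_D n a 0 0 F (fun u => orb (↑F) σ u) s i) ∪
        (Finset.range k).filter (fun i => GRD_D n a (-n) 0 (rM F) (fun u => rS (orb (↑F) σ u)) s i))
        ∪ (Finset.range k).filter (fun i => GRD_D n a (-n) (-n) (rM (rM F))
        (fun u => rS (rS (orb (↑F) σ u))) s i))
      ((Finset.range k).filter (fun i => GRD_D n a 0 (-n) (rM (rM (rM F)))
        (fun u => rS (rS (rS (orb (↑F) σ u)))) s i))
    have h3 := Finset.card_union_le
      ((Finset.range k).filter (fun i => GRD_D n a 0 0 F (fun u => orb (↑F) σ u) s i) ∪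
        (Finset.range k).filter (fun i => GRD_D n a (-n) 0 (rM F) (fun u => rS (orb (↑F) σ u)) s i))
      ((Finset.range k).filter (fun i => GRD_D n a (-n) (-n) (rM (rM F))
        (fun u => rS (rS (orb (↑F) σ u))) s i))
    have h4 := Finset.card_union_le
      ((Finset.range k).filter (fun i => GRD_D n a 0 0 F (fun u => orb (↑F) σ u) s i))
      ((Finset.range k).filter (fun i => GRD_D n a (-n) 0 (rM F) (fun u => rS (orb (↑F) σ u)) s i))
    unfold N4
    omega
  -- the pieces are small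
  have hn0 : (0:ℝ) < n := by exact_mod_cast hn
  have hstep : ∀ u, |(orb (↑F : Set Edge) σ (u + 1)).1.1 - (orb (↑F) σ u).1.1| ≤ 1 ∧
      |(orb (↑F : Set Edge) σ (u + 1)).1.2 - (orb (↑F) σ u).1.2| ≤ 1 := by
    intro u
    rw [orb_succ]
    exact nxt_fst _ _
  have hpt : ∀ u v : ℕ, |(orb (↑F : Set Edge) σ u).1.1 - (orb (↑F) σ v).1.1| ≤ 4 * a + 2 →
      |(orb (↑F : Set Edge) σ u).1.2 - (orb (↑F) σ v).1.2| ≤ 4 * a + 2 →
      |(pt n (orb (↑F : Set Edge) σ u).1).re - (pt n (orb (↑F) σ v).1).re| ≤ (4 * a + 2) / n ∧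
      |(pt n (orb (↑F : Set Edge) σ u).1).im - (pt n (orb (↑F) σ v).1).im| ≤ (4 * a + 2) / n := by
    intro u v h1 h2
    have h1' : |((orb (↑F : Set Edge) σ u).1.1 : ℝ) - ((orb (↑F) σ v).1.1 : ℝ)| ≤ 4 * a + 2 := by
      exact_mod_cast h1
    have h2' : |((orb (↑F : Set Edge) σ u).1.2 : ℝ) - ((orb (↑F) σ v).1.2 : ℝ)| ≤ 4 * a + 2 := by
      exact_mod_cast h2
    constructor
    · show |((orb (↑F : Set Edge) σ u).1.1 : ℝ) / n - ((orb (↑F) σ v).1.1 : ℝ) / n| ≤ _
      rw [← sub_div, abs_div, abs_of_pos hn0]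
      exact div_le_div_of_nonneg_right h1' hn0.le
    · show |((orb (↑F : Set Edge) σ u).1.2 : ℝ) / n - ((orb (↑F) σ v).1.2 : ℝ) / n| ≤ _
      rw [← sub_div, abs_div, abs_of_pos hn0]
      exact div_le_div_of_nonneg_right h2' hn0.le
  have hpiece : ∀ i < k, ∀ u, s i ≤ u → u ≤ s (i + 1) →
      |(orb (↑F : Set Edge) σ u).1.1 - (orb (↑F) σ (s i)).1.1| ≤ 4 * a + 2 ∧
      |(orb (↑F : Set Edge) σ u).1.2 - (orb (↑F) σ (s i)).1.2| ≤ 4 * a + 2 := by
    intro i hi u hu1 hu2
    obtain ⟨h1, _, h3⟩ := hs1 i hi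
    have key : ∀ v, s i ≤ v → v < s (i + 1) →
        |(orb (↑F : Set Edge) σ v).1.1 - (orb (↑F) σ (s i)).1.1| ≤ 4 * a + 1 ∧
        |(orb (↑F : Set Edge) σ v).1.2 - (orb (↑F) σ (s i)).1.2| ≤ 4 * a + 1 := by
      intro v hv1 hv2
      have := h3 v hv1 hv2
      unfold Far at this
      rw [abs_le, abs_le]
      omega
    rcases Nat.lt_or_eq_of_le hu2 with h | h
    · have := key u hu1 h
      omega
    · obtain ⟨v, rfl⟩ : ∃ v, u = v + 1 := ⟨u - 1, by omega⟩
      have e1 := key v (by omega) (by omega)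
      have e2 := hstep v
      rw [abs_le, abs_le] at e1 e2 ⊢
      omega
  have hlast : ∀ u, s k ≤ u → u ≤ N →
      |(orb (↑F : Set Edge) σ u).1.1 - (orb (↑F) σ (s k)).1.1| ≤ 4 * a + 2 ∧
      |(orb (↑F : Set Edge) σ u).1.2 - (orb (↑F) σ (s k)).1.2| ≤ 4 * a + 2 := by
    intro u hu1 hu2
    have := hs2 u hu1 hu2
    unfold Far at this
    rw [abs_le, abs_le]
    omega
  have hρ : (0:ℝ) ≤ (4 * a + 2) / n := by positivity
  have hr : 3 * ((4 * (a:ℝ) + 2) / n) ≤ (12 * a + 6) / n := by
    apply le_of_eq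
    ring
  rcases Nat.lt_or_eq_of_le hs3 with h | h
  · refine GRD_cut hP hN (K := k + 1) (ρ := (4 * a + 2) / n) (fun i => if i ≤ k then s i else N)
      (by omega) (by simp [hs0]) (by simp) ?_ ?_ (by omega) hρ hr
    · intro i hi
      rcases Nat.lt_or_eq_of_le (Nat.lt_succ_iff.1 hi) with h1 | h1
      · simp only [h1.le, Nat.succ_le_of_lt h1, if_true]
        exact hlt i h1
      · subst h1
        simpa using h
    · intro i hi u
      rcases Nat.lt_or_eq_of_le (Nat.lt_succ_iff.1 hi) with h1 | h1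
      · simp only [h1.le, Nat.succ_le_of_lt h1, if_true]
        intro hu1 hu2
        exact hpt _ _ (hpiece i h1 u hu1 hu2).1 (hpiece i h1 u hu1 hu2).2
      · subst h1
        simp only [le_refl, if_true, Nat.not_succ_le_self, if_false]
        intro hu1 hu2
        exact hpt _ _ (hlast u hu1 hu2).1 (hlast u hu1 hu2).2
  · have hk0 : 0 < k := by
      rcases Nat.eq_zero_or_pos k with h1 | h1
      · rw [h1, hs0] at h
        omega
      · exact h1
    refine GRD_cut hP hN (K := k) (ρ := (4 * a + 2) / n) s hk0 hs0 h hlt ?_ (by omega) hρ hr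
    intro i hi u hu1 hu2
    exact hpt _ _ (hpiece i hi u hu1 hu2).1 (hpiece i hi u hu1 hu2).2

end H342T
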