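import Pool.Agent.H342R3.Tig.Stubs
import Pool.Agent.H984R3.Per.Pot
import Pool.Agent.H984R3.Per.PerBig
import Pool.Agent.H984R3.Per.Extent
import Pool.Agent.H984R3.Per.SideL

namespace H342T

open H342L H342P H342P.Plain H984P MeasureTheory TopologicalSpace Filter Topology
open scoped ENNReal

/-- ORB: the outer states of a cluster form one orbit. -/
theorem t_ORB : St_ORB := by
  intro F v σ τ hσ hτ hoσ hoτ
  rw [Plain.mem_cluster] at hσ hτ
  rw [Plain.outer_iff] at hoσ hoτ
  obtain ⟨hv, hf, hpot, hF, hE⟩ := pot_of_inv (↑F : Set H974.Edg)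
    {τ | ∃ t, orb (↑F : Set H974.Edg) σ t = τ} (P17.inv F σ)
  -- `hv` is constant on clusters
  have hreach : ∀ u w, H974.Reach (↑F : Set H974.Edg) u w → hv u = hv w := by
    intro u w h
    induction h with
    | refl => rfl
    | tail _ hs ih =>
      obtain ⟨e, he, h | h⟩ := hs
      · rw [ih, ← h.1, ← h.2]; exact hF e he
      · rw [ih, ← h.1, ← h.2]; exact (hF e he).symm
  -- states of the orbit
  have hA : ∀ s : St, s ∈ {τ | ∃ t, orb (↑F : Set H974.Edg) σ t = τ} →
      H974.Reach (↑F : Set H974.Edg) v s.1 := by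
    rintro s ⟨t, rfl⟩
    exact hσ.trans (P17.orb_vertex t)
  -- `hf` does not change across the edges which are not edges of the cluster
  have hfe : ∀ e : H974.Edg, e ∉ EC (↑F : Set H974.Edg) v →
      hf (H974.dsrc e) = hf (H974.dtgt e) := by
    intro e he
    by_cases heF : e ∈ (↑F : Set H974.Edg)
    · have hs : ¬ H974.Reach (↑F : Set H974.Edg) v (H974.src e) := fun h => he ⟨heF, h⟩
      have ht : ¬ H974.Reach (↑F : Set H974.Edg) v (H974.tgt e) := fun h =>
        hs (h.tail ⟨e, heF, Or.inr ⟨rfl, rfl⟩⟩)
      obtain ⟨s, rfl⟩ := SideAux.exists_ae e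
      have h1 : ¬ H974.Reach (↑F : Set H974.Edg) v s.1 := by
        rcases SideAux.ends s with h | h
        · rw [← h.1]; exact hs
        · rw [← h.2]; exact ht
      have h2 : ¬ H974.Reach (↑F : Set H974.Edg) v (SideAux.op s).1 := by
        rcases SideAux.ends s with h | h
        · rw [← h.2]; exact ht
        · rw [← h.1]; exact hs
      have h3 : hv s.1 = hf (face s) := by
        have := hpot s
        rw [H974.b2_not_of (fun h => h1 (hA s h))] at this
        exact SideAux.z2_eq this
      have h4 : hv (SideAux.op s).1 = hf (face (SideAux.op s)) := by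
        have := hpot (SideAux.op s)
        rw [H974.b2_not_of (fun h => h2 (hA _ h))] at this
        exact SideAux.z2_eq this
      have h5 : hv s.1 = hv (SideAux.op s).1 := by
        have := hF _ heF
        rcases SideAux.ends s with h | h
        · rw [h.1, h.2] at this; exact this
        · rw [h.1, h.2] at this; exact this.symm
      have h6 : hf (face s) = hf (face (SideAux.op s)) := by rw [← h3, ← h4, h5]
      rcases SideAux.faces s with h | h
      · rw [h.1, h.2]; exact h6
      · rw [h.1, h.2]; exact h6.symm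
    · exact hE e heF
  have hdreach : ∀ f g, H974.DReach (EC (↑F : Set H974.Edg) v)ᶜ f g → hf f = hf g := by
    intro f g h
    induction h with
    | refl => rfl
    | tail _ hs ih =>
      obtain ⟨e, he, h | h⟩ := hs
      · rw [ih, ← h.1, ← h.2]; exact hfe e he
      · rw [ih, ← h.1, ← h.2]; exact (hfe e he).symm
  have e1 : hv σ.1 = hv τ.1 := (hreach _ _ hσ).symm.trans (hreach _ _ hτ)
  have e2 : hf (face σ) = hf (face τ) := (hdreach _ _ hoσ).trans (hdreach _ _ hoτ).symm
  have e3 := hpot σ
  rw [H974.b2_of (show σ ∈ {τ | ∃ t, orb (↑F : Set H974.Edg) σ t = τ} from ⟨0, rfl⟩)] at e3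
  have e4 := hpot τ
  by_contra hcon
  rw [H974.b2_not_of (show τ ∉ {τ | ∃ t, orb (↑F : Set H974.Edg) σ t = τ} from hcon), ← e1, ← e2,
    e3] at e4
  exact absurd e4 (by decide)

end H342T
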