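import Pool.Agent.H342R3.Tig.Stubs

/-! Elementary properties of polygonal paths. -/

namespace H342T

open H342L H342P H342P.Plain H984P MeasureTheory TopologicalSpace Filter Topology
open scoped ENNReal

theorem POL_apply (f : ℕ → ℂ) (N : ℕ) (t : unitInterval) : poly f N t =
    f 0 + ∑ j ∈ Finset.range N,
      ((max 0 (min 1 ((N : ℝ) * (t : ℝ) - j)) : ℝ) : ℂ) * (f (j + 1) - f j) := rfl

theorem POL_formula (f : ℕ → ℂ) (N j : ℕ) (hj : j < N) (t : unitInterval)
    (h1 : (j : ℝ) ≤ N * (t : ℝ)) (h2 : N * (t : ℝ) ≤ j + 1) :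
    poly f N t = f j + ((N * (t : ℝ) - j : ℝ) : ℂ) * (f (j + 1) - f j) := by
  have key : ∀ i ∈ Finset.range N,
      ((max 0 (min 1 ((N : ℝ) * (t : ℝ) - i)) : ℝ) : ℂ) * (f (i + 1) - f i) =
      (if i < j then f (i + 1) - f i else 0) +
        (if i = j then ((N * (t : ℝ) - j : ℝ) : ℂ) * (f (j + 1) - f j) else 0) := by
    intro i _
    rcases lt_trichotomy i j with hij | hij | hij
    · have h3 : ((i : ℝ) + 1) ≤ j := by exact_mod_cast hij
      rw [if_pos hij, if_neg hij.ne, min_eq_left (by linarith), max_eq_right zero_le_one]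
      simp
    · subst hij
      rw [if_neg (lt_irrefl i), if_pos rfl, min_eq_right (by linarith),
        max_eq_right (by linarith), zero_add]
    · have h3 : ((j : ℝ) + 1) ≤ i := by exact_mod_cast hij
      rw [if_neg (by omega), if_neg hij.ne', min_eq_right (by linarith),
        max_eq_left (by linarith)]
      simp
  rw [POL_apply, Finset.sum_congr rfl key, Finset.sum_add_distrib, Finset.sum_ite_eq',
    if_pos (Finset.mem_range.2 hj), ← Finset.sum_filter]
  have h3 : (Finset.range N).filter (fun i => i < j) = Finset.range j := by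
    ext i
    simp only [Finset.mem_filter, Finset.mem_range]
    omega
  rw [h3, Finset.sum_range_sub]
  ring

theorem t_POL : St_POL := by
  intro f N hN
  have hN' : (0 : ℝ) < N := by exact_mod_cast hN
  refine ⟨?_, ?_, ?_, fun j hj t h1 h2 => POL_formula f N j hj t h1 h2⟩
  · have h := POL_formula f N 0 hN 0 (by simp) (by simp)
    rw [h]
    simp
  · have h3 : ((N - 1 : ℕ) : ℝ) = N - 1 := by
      rw [Nat.cast_sub (by omega)]
      simp
    have h := POL_formula f N (N - 1) (by omega) 1 (by
      rw [h3]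
      simp) (by
      rw [h3]
      simp)
    rw [h, h3]
    have h4 : N - 1 + 1 = N := by omega
    rw [h4]
    have h5 : (((N : ℝ) * ((1 : unitInterval) : ℝ) - (N - 1) : ℝ) : ℂ) = 1 := by
      simp
    rw [h5]
    ring
  · ext x
    simp only [Set.mem_range, Set.mem_iUnion, Finset.mem_range, exists_prop]
    constructor
    · rintro ⟨t, rfl⟩
      have ht0 : (0 : ℝ) ≤ N * (t : ℝ) := mul_nonneg hN'.le t.2.1
      have ht1 : (N : ℝ) * (t : ℝ) ≤ N := mul_le_of_le_one_right hN'.le t.2.2
      obtain ⟨j, hj, h1, h2⟩ : ∃ j < N, (j : ℝ) ≤ N * (t : ℝ) ∧ N * (t : ℝ) ≤ j + 1 := by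
        by_cases h : ⌊(N : ℝ) * (t : ℝ)⌋₊ < N
        · exact ⟨_, h, Nat.floor_le ht0, (Nat.lt_floor_add_one _).le⟩
        · have h3 : ((N - 1 : ℕ) : ℝ) = N - 1 := by
            rw [Nat.cast_sub (by omega)]
            simp
          have h4 : (N : ℝ) ≤ N * (t : ℝ) := (Nat.le_floor_iff ht0).1 (by omega)
          refine ⟨N - 1, by omega, ?_, ?_⟩
          · rw [h3]
            linarith
          · rw [h3]
            linarith
      refine ⟨j, hj, ?_⟩
      rw [POL_formula f N j hj t h1 h2, segment_eq_image']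
      refine ⟨N * (t : ℝ) - j, ⟨by linarith, by linarith⟩, ?_⟩
      simp only [Complex.real_smul]
    · rintro ⟨j, hj, hx⟩
      rw [segment_eq_image'] at hx
      obtain ⟨θ, ⟨h0, h1⟩, rfl⟩ := hx
      have h2 : ((j : ℝ) + 1) ≤ N := by exact_mod_cast hj
      have h3 : (0 : ℝ) ≤ (j + θ) / N := by positivity
      have h4 : ((j : ℝ) + θ) / N ≤ 1 := by
        rw [div_le_one hN']
        linarith
      have h5 : (N : ℝ) * ((j + θ) / N) = j + θ := by
        field_simp
      refine ⟨⟨(j + θ) / N, h3, h4⟩, ?_⟩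
      rw [POL_formula f N j hj ⟨(j + θ) / N, h3, h4⟩ (by
        change (j : ℝ) ≤ N * ((j + θ) / N)
        rw [h5]
        linarith) (by
        change (N : ℝ) * ((j + θ) / N) ≤ j + 1
        rw [h5]
        linarith)]
      change f j + ((N * ((j + θ) / N) - j : ℝ) : ℂ) * (f (j + 1) - f j) = _
      rw [h5, add_sub_cancel_left]
      simp only [Complex.real_smul]

end H342T
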