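import Pool.Agent.H342R3.Tig.Stubs
import Mathlib.MeasureTheory.Measure.Prokhorov

/-!
Prokhorov's theorem for the pseudometric space of curves.
-/

namespace H342T

open H342L H342P H342P.Plain H984P MeasureTheory TopologicalSpace Filter Topology
open scoped ENNReal

/-- Sequential form of Prokhorov's theorem for separable pseudometric spaces. -/
theorem PRK_gen {X : Type} [PseudoMetricSpace X] [SeparableSpace X] [MeasurableSpace X]
    [BorelSpace X] (μs : ℕ → ProbabilityMeasure X)
    (h : ∀ ε : ℝ, 0 < ε → ∃ K : Set X, IsCompact K ∧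
      ∀ i, (μs i : Measure X) Kᶜ ≤ ENNReal.ofReal ε) :
    ∃ (φ : ℕ → ℕ) (μ : ProbabilityMeasure X), StrictMono φ ∧
      Tendsto (fun i => μs (φ i)) atTop (𝓝 μ) := by
  let Q := SeparationQuotient X
  let _ : MeasurableSpace Q := borel Q
  have : BorelSpace Q := ⟨rfl⟩
  have hmk : Continuous (SeparationQuotient.mk : X → Q) := SeparationQuotient.continuous_mk
  have hsurj : Function.Surjective (SeparationQuotient.mk : X → Q) :=
    SeparationQuotient.surjective_mk
  have : SeparableSpace Q := hsurj.denseRange.separableSpace hmk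
  let out : Q → X := Function.surjInv hsurj
  have hout : ∀ q, (SeparationQuotient.mk (out q) : Q) = q := Function.surjInv_eq hsurj
  have hoc : Continuous out := by
    rw [SeparationQuotient.isInducing_mk.continuous_iff]
    have : (SeparationQuotient.mk : X → Q) ∘ out = id := by
      funext q
      exact hout q
    rw [this]
    exact continuous_id
  let ν : ℕ → ProbabilityMeasure Q := fun i => (μs i).map hmk.measurable.aemeasurable
  have htight : IsTightMeasureSet {((μ : ProbabilityMeasure Q) : Measure Q) |
      μ ∈ Set.range ν} := by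
    rw [isTightMeasureSet_iff_exists_isCompact_measure_compl_le]
    intro ε hε
    by_cases htop : ε = ⊤
    · refine ⟨∅, isCompact_empty, ?_⟩
      intro μ _
      rw [htop]
      exact le_top
    · obtain ⟨K, hK, hKi⟩ := h ε.toReal (ENNReal.toReal_pos hε.ne' htop)
      refine ⟨SeparationQuotient.mk '' K, hK.image hmk, ?_⟩
      rintro _ ⟨μ, ⟨i, rfl⟩, rfl⟩
      have hcl : IsClosed (SeparationQuotient.mk '' K : Set Q) := (hK.image hmk).isClosed
      show ((ν i : ProbabilityMeasure Q) : Measure Q) _ ≤ ε
      rw [ProbabilityMeasure.toMeasure_map, Measure.map_apply hmk.measurable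
        hcl.measurableSet.compl]
      refine (measure_mono ?_).trans ((hKi i).trans (ENNReal.ofReal_toReal htop).le)
      intro x hx hxK
      exact hx ⟨x, hxK, rfl⟩
  have hcomp := isCompact_closure_of_isTightMeasureSet htight
  obtain ⟨μ, -, φ, hφ, hlim⟩ := hcomp.tendsto_subseq (x := ν)
    (fun i => subset_closure (Set.mem_range_self i))
  have h2 := ProbabilityMeasure.tendsto_map_of_tendsto_of_continuous _ _ hlim hoc
  refine ⟨φ, μ.map hoc.measurable.aemeasurable, hφ, ?_⟩
  convert h2 using 2 with i
  apply Subtype.ext
  show (μs (φ i) : Measure X) = ((ν (φ i)).map hoc.measurable.aemeasurable : Measure X)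
  rw [ProbabilityMeasure.toMeasure_map, ProbabilityMeasure.toMeasure_map,
    Measure.map_map hoc.measurable hmk.measurable]
  refine Measure.ext fun B hB => ?_
  rw [Measure.map_apply (hoc.measurable.comp hmk.measurable) hB]
  congr 1
  ext x
  have hins : Inseparable (out (SeparationQuotient.mk x)) x := by
    rw [← SeparationQuotient.mk_eq_mk]
    exact hout _
  exact (hins.mem_measurableSet_iff hB).symm

/-- the curve with a given parametrisation -/
theorem PRK_continuous_mk : Continuous (fun f : C(unitInterval, ℂ) => (⟨f⟩ : Curve)) := by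
  apply LipschitzWith.continuous (K := 1)
  apply LipschitzWith.of_dist_le_mul
  intro γ γ'
  rw [NNReal.coe_one, one_mul, Curve.dist_def]
  refine (cdist_le γ γ' (OrderIso.refl _)).trans (le_of_eq ?_)
  have : rep γ' (OrderIso.refl _) = γ' := by ext t; rfl
  rw [this]

theorem t_PRK : St_PRK := by
  intro μs h
  have : SeparableSpace Curve := by
    have hs : Function.Surjective (fun f : C(unitInterval, ℂ) => (⟨f⟩ : Curve)) := by
      rintro ⟨f⟩
      exact ⟨f, rfl⟩
    exact hs.denseRange.separableSpace PRK_continuous_mk
  refine PRK_gen μs fun ε hε => ?_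
  obtain ⟨K, hK, _, hKi⟩ := h ε hε
  exact ⟨K, hK, hKi⟩

end H342T
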