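import Pool.Agent.H342R3.Tig.Stubs
import Pool.Agent.H342R3.Lim.TOPA
import Pool.Agent.H342R3.Lim.TOPB
import Pool.Agent.H342R3.Lim.CPT
import Pool.Agent.H342R3.Pin.PLA
import Pool.Agent.H984R3.Per.PerBig

/-! Task T-RNG (helper25): the range of the tracing path is the outer boundary. -/

namespace H342T

open H342L H342P H342P.Plain H984P MeasureTheory TopologicalSpace Filter Topology
open scoped ENNReal

/-! ### Outer faces are outside (also for clusters without edges) -/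

theorem RNG_H_body {n : ℕ} (hn : 0 < n) {F : Finset Edge} (hF : F ⊆ edges n) {v : ℤ × ℤ}
    (hv : v ∈ box n) : {z : ℂ | (n : ℝ) * z.re < 0} ⊆ (body n F v)ᶜ := by
  intro z hz hb
  have hz' : (n : ℝ) * z.re < 0 := hz
  have h1 := (CPT_body_square hn hF hv hb).1.1
  have h2 : (0 : ℝ) < n := by exact_mod_cast hn
  nlinarith [mul_nonneg h2.le h1]

theorem RNG_path {n : ℕ} (hn : 0 < n) {F : Finset Edge} (hF : F ⊆ edges n) {v : ℤ × ℤ}
    (hv : v ∈ box n) {f : ℤ × ℤ} (hf : Plain.Outer F v f) :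
    ∃ T : Set ℂ, IsPreconnected T ∧ T ⊆ (body n F v)ᶜ ∧ TOPA_Q n f ⊆ T ∧
      {z : ℂ | (n : ℝ) * z.re < 0} ⊆ T := by
  unfold Plain.Outer at hf
  rw [reachable_iff (faceGraph_adj _)] at hf
  induction hf using Relation.ReflTransGen.head_induction_on with
  | refl =>
    refine ⟨_, (TOPA_H_convex n).isPreconnected, RNG_H_body hn hF hv, ?_, subset_rfl⟩
    rintro z ⟨⟨-, h2⟩, -⟩
    simpa using h2
  | @head a c hab _ ih =>
    obtain ⟨T, h1, h2, h3, h4⟩ := ih
    obtain ⟨g, hg, hgs⟩ := hab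
    have hg' : g ∉ clusterEdges F v := hg
    have key : TOPA_Q n a ⊆ TOPA_D n g ∧ TOPA_Q n c ⊆ TOPA_D n g := by
      rw [← side₁_eq, ← side₂_eq] at hgs
      rcases hgs with ⟨ha, hb⟩ | ⟨ha, hb⟩
      · rw [← ha, ← hb]; exact ⟨TOPA_D_side1 n g, TOPA_D_side2 n g⟩
      · rw [← ha, ← hb]; exact ⟨TOPA_D_side2 n g, TOPA_D_side1 n g⟩
    refine ⟨TOPA_D n g ∪ T, ?_, Set.union_subset (TOPA_D_body hn hg') h2,
      key.1.trans Set.subset_union_left, h4.trans Set.subset_union_right⟩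
    exact IsPreconnected.union _ (key.2 (TOPA_Q_nonempty hn c)) (h3 (TOPA_Q_nonempty hn c))
      (TOPA_D_convex n g).isPreconnected h1

theorem RNG_outside {n : ℕ} (hn : 0 < n) {F : Finset Edge} (hF : F ⊆ edges n) {v : ℤ × ℤ}
    (hv : v ∈ box n) {f : ℤ × ℤ} (hf : Plain.Outer F v f) :
    TOPA_Q n f ⊆ outside n F v := by
  intro z hz
  refine ⟨TOPA_Q_body hn f hz, ?_⟩
  obtain ⟨T, h1, h2, h3, h4⟩ := RNG_path hn hF hv hf
  have h5 := h1.subset_connectedComponentIn (h3 hz) h2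
  intro hb
  have h6 := (hb.subset (h4.trans h5))
  obtain ⟨C, hC⟩ := (Metric.isBounded_iff_subset_closedBall (0 : ℂ)).1 h6
  have h7 : (⟨-(|C| + 1), 0⟩ : ℂ) ∈ {z : ℂ | (n : ℝ) * z.re < 0} := by
    rw [Set.mem_ofPred_eq]
    have : (0 : ℝ) < n := by positivity
    have h8 : 0 < |C| + 1 := by positivity
    show (n : ℝ) * (-(|C| + 1)) < 0
    nlinarith
  have h9 := hC h7
  rw [mem_closedBall_zero_iff] at h9
  have h10 := Complex.abs_re_le_norm (⟨-(|C| + 1), 0⟩ : ℂ)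
  have h11 : |(⟨-(|C| + 1), 0⟩ : ℂ).re| = |C| + 1 := by
    show |-(|C| + 1)| = |C| + 1
    rw [abs_neg, abs_of_pos (by positivity)]
  rw [h11] at h10
  have := le_abs_self C
  linarith

theorem RNG_bdry {n : ℕ} (hn : 0 < n) {F : Finset Edge} (hF : F ⊆ edges n) {v : ℤ × ℤ}
    (hv : v ∈ box n) {u f : ℤ × ℤ} (hu : u ∈ cluster F v) (hi : Inc u f)
    (hf : Plain.Outer F v f) : pt n u ∈ outerBoundary n F v := by
  have hbody : pt n u ∈ body n F v := by
    left
    exact Set.mem_biUnion (x := u) hu (Set.mem_singleton _)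
  have hcl : pt n u ∈ closure (TOPA_Q n f) := by
    obtain ⟨h1, h2⟩ := TOPA_pt hn u
    unfold Inc at hi
    apply TOPA_closure hn f
    · rw [h1]; exact_mod_cast (by omega : f.1 ≤ u.1)
    · rw [h1]; exact_mod_cast (by omega : u.1 ≤ f.1 + 1)
    · rw [h2]; exact_mod_cast (by omega : f.2 ≤ u.2)
    · rw [h2]; exact_mod_cast (by omega : u.2 ≤ f.2 + 1)
  refine ⟨closure_mono (RNG_outside hn hF hv hf) hcl, fun h => ?_⟩
  exact (interior_subset h).1 hbody

/-! ### States -/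

theorem RNG_inc (σ : St) : Inc σ.1 (face σ) := by
  obtain ⟨⟨x, y⟩, q⟩ := σ
  cases q <;> simp [Inc]

theorem RNG_side (σ : St) : face σ = side₁ (ae σ) ∨ face σ = side₂ (ae σ) := by
  obtain ⟨⟨x, y⟩, q⟩ := σ
  cases q <;> simp [side₁, side₂]

theorem RNG_seg (n : ℕ) (σ : St) : segment ℝ (pt n σ.1) (pt n (mv σ).1) = seg n (ae σ) := by
  unfold seg
  rw [fst_eq, snd_eq]
  rcases pb_ends σ with ⟨h1, h2⟩ | ⟨h1, h2⟩
  · rw [h1, h2]
  · rw [h1, h2, segment_symm]

theorem RNG_face {u g : ℤ × ℤ} (h : Inc u g) : ∃ q : Q4, face (u, q) = g := by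
  obtain ⟨x, y⟩ := u
  obtain ⟨a, b⟩ := g
  obtain ⟨h1, h2⟩ := h
  simp only at h1 h2
  rcases h1 with rfl | rfl <;> rcases h2 with rfl | rfl
  · exact ⟨.ne, rfl⟩
  · exact ⟨.se, rfl⟩
  · exact ⟨.nw, rfl⟩
  · exact ⟨.sw, rfl⟩

theorem RNG_edge {e : Edge} {g : ℤ × ℤ} (h : g = side₁ e ∨ g = side₂ e) :
    ∃ τ : St, ae τ = e ∧ face τ = g ∧ (τ.1 = fst e ∨ τ.1 = snd e) := by
  obtain ⟨x, y, t⟩ := e
  rcases h with rfl | rfl <;> cases t
  · exact ⟨((x, y), .nw), by simp, by simp [side₁], Or.inl rfl⟩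
  · exact ⟨((x + 1, y), .sw), by simp, by simp [side₁], Or.inr (by simp [snd])⟩
  · exact ⟨((x, y + 1), .se), by simp, by simp [side₂], Or.inr (by simp [snd])⟩
  · exact ⟨((x, y), .ne), by simp, by simp [side₂], Or.inl rfl⟩

theorem RNG_state {F : Finset Edge} {v : ℤ × ℤ} {σ : St} (h1 : σ.1 ∈ cluster F v)
    (h2 : Plain.Outer F v (face σ)) (s : ℕ) : (orb (↑F) σ s).1 ∈ cluster F v ∧
      Plain.Outer F v (face (orb (↑F) σ s)) := by
  rw [mem_cluster] at h1 ⊢
  rw [Plain.outer_iff] at h2 ⊢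
  refine ⟨h1.trans (pb_reach (↑F) σ s), ?_⟩
  unfold H342P.Outer at h2 ⊢
  refine ((pb_dreach (↑F) σ s).symm.mono ?_).trans h2
  apply Set.compl_subset_compl.2
  intro e he
  exact he.1

theorem RNG_mod {F : Set Edge} {σ : St} {N : ℕ} (hper : orb F σ N = σ) (s : ℕ) :
    orb F σ (s % N) = orb F σ s := by
  conv_rhs => rw [← Nat.mod_add_div' s N, orb_add, pb_period_mul hper]

theorem RNG_snd {F : Finset Edge} {v : ℤ × ℤ} {e : Edge} (he : e ∈ clusterEdges F v) :
    snd e ∈ cluster F v := by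
  have h3 := he.2
  rw [mem_cluster] at h3 ⊢
  exact Relation.ReflTransGen.tail h3 ⟨e, Finset.mem_coe.2 he.1, Or.inl ⟨rfl, (snd_eq e).symm⟩⟩

/-- an edge whose side `face σ` is examined at an outer state of the cluster -/
theorem RNG_ae {F : Finset Edge} {v : ℤ × ℤ} {σ : St} (h1 : σ.1 ∈ cluster F v)
    (ho : ae σ ∈ F) : ae σ ∈ clusterEdges F v := by
  refine ⟨ho, ?_⟩
  rw [mem_cluster] at h1 ⊢
  rw [fst_eq]
  rcases pb_ends σ with ⟨h3, h4⟩ | ⟨h3, h4⟩
  · rw [h3]; exact h1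
  · exact Relation.ReflTransGen.tail h1 ⟨ae σ, Finset.mem_coe.2 ho, Or.inr ⟨rfl, h4⟩⟩

theorem RNG_sub {n : ℕ} (hn : 0 < n) {F : Finset Edge} (hF : F ⊆ edges n) {v : ℤ × ℤ}
    (hv : v ∈ box n) {σ : St} (h1 : σ.1 ∈ cluster F v) (h2 : Plain.Outer F v (face σ)) :
    segment ℝ (pt n σ.1) (pt n (nxt (↑F) σ).1) ⊆ outerBoundary n F v := by
  by_cases ho : ae σ ∈ F
  · rw [nxt_open (Finset.mem_coe.2 ho), RNG_seg]
    apply t_TOPA n F v hn hF _ (RNG_ae h1 ho)
    rcases RNG_side σ with h | h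
    · rw [← h]; exact Or.inl h2
    · rw [← h]; exact Or.inr h2
  · rw [nxt_closed (fun h => ho (Finset.mem_coe.1 h)), p2_rt_fst, segment_same,
      Set.singleton_subset_iff]
    exact RNG_bdry hn hF hv h1 (RNG_inc σ) h2

/-- a boundary point is in a segment of an outer state -/
theorem RNG_sup {n : ℕ} (hn : 0 < n) {F : Finset Edge} (hF : F ⊆ edges n) {v : ℤ × ℤ}
    {z : ℂ} (hz : z ∈ outerBoundary n F v) :
    ∃ σ : St, σ.1 ∈ cluster F v ∧ Plain.Outer F v (face σ) ∧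
      z ∈ segment ℝ (pt n σ.1) (pt n (nxt (↑F) σ).1) := by
  have hn' : (0 : ℝ) < n := by exact_mod_cast hn
  have hzb : z ∈ body n F v := CPT_frontier_sub n F v hz
  have hz1 : z ∈ closure (outside n F v) := frontier_subset_closure hz
  obtain ⟨y, hy1, hy2⟩ := mem_closure_iff_nhds.1 hz1 _ (TOPB_near n z)
  obtain ⟨g, hg1, hg2⟩ := TOPB_outside hn hF hy2
  have hg := hy1 g hg1
  -- a lattice point of the cluster
  have key : ∀ u ∈ cluster F v, (n : ℝ) * z.re = u.1 → (n : ℝ) * z.im = u.2 →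
      ∃ σ : St, σ.1 ∈ cluster F v ∧ Plain.Outer F v (face σ) ∧
      z ∈ segment ℝ (pt n σ.1) (pt n (nxt (↑F) σ).1) := by
    intro u hu e1 e2
    have hinc : Inc u g := by
      obtain ⟨⟨a1, a2⟩, a3, a4⟩ := hg
      rw [e1] at a1 a2
      rw [e2] at a3 a4
      have b1 : g.1 ≤ u.1 := by exact_mod_cast a1
      have b2 : u.1 ≤ g.1 + 1 := by exact_mod_cast a2
      have b3 : g.2 ≤ u.2 := by exact_mod_cast a3
      have b4 : u.2 ≤ g.2 + 1 := by exact_mod_cast a4
      unfold Inc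
      omega
    obtain ⟨q, hq⟩ := RNG_face hinc
    refine ⟨(u, q), hu, by rw [hq]; exact hg2, ?_⟩
    have hzu : z = pt n u := by
      apply Complex.ext
      · simp only [pt]
        rw [← e1]; field_simp
      · simp only [pt]
        rw [← e2]; field_simp
    rw [hzu]
    exact left_mem_segment _ _ _
  rcases hzb with hzb | hzb
  · obtain ⟨w, hw, hzw⟩ := Set.mem_iUnion₂.1 hzb
    rw [Set.mem_singleton_iff] at hzw
    obtain ⟨e1, e2⟩ := TOPA_pt hn w
    exact key w hw (by rw [hzw]; exact e1) (by rw [hzw]; exact e2)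
  · obtain ⟨e, he, hze⟩ := Set.mem_iUnion₂.1 hzb
    obtain ⟨t, ht0, ht1, h1, h2⟩ := TOPB_mem_seg hn hze
    rcases ht0.eq_or_lt with ht | ht0'
    · refine key (fst e) he.2 ?_ ?_
      · rw [h1, ← ht]; simp [fst]
      · rw [h2, ← ht]; simp [fst]
    rcases ht1.eq_or_lt with ht | ht1'
    · refine key (snd e) (RNG_snd he) ?_ ?_
      · rw [h1, ht]
        obtain ⟨a, b, c⟩ := e
        cases c <;> simp [snd]
      · rw [h2, ht]
        obtain ⟨a, b, c⟩ := e
        cases c <;> simp [snd]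
    · have hside : g = side₁ e ∨ g = side₂ e := by
        obtain ⟨a, b, c⟩ := e
        obtain ⟨g1, g2⟩ := g
        obtain ⟨⟨a1, a2⟩, a3, a4⟩ := hg
        simp only at a1 a2 a3 a4
        cases c
        · simp only [Bool.false_eq_true, if_false, add_zero] at h1 h2
          rw [h1] at a1 a2
          rw [h2] at a3 a4
          have b1 : g1 ≤ a := by exact_mod_cast a1
          have b2 : a ≤ g1 + 1 := by exact_mod_cast a2
          have c1 : (g2:ℝ) < b + 1 := by linarith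
          have c2 : (b:ℝ) < g2 + 1 := by linarith
          have b3 : g2 < b + 1 := by exact_mod_cast c1
          have b4 : b < g2 + 1 := by exact_mod_cast c2
          simp only [side₁, side₂, Bool.false_eq_true, if_false, Prod.mk.injEq]
          omega
        · simp only [if_true, add_zero] at h1 h2
          rw [h1] at a1 a2
          rw [h2] at a3 a4
          have b1 : g2 ≤ b := by exact_mod_cast a3
          have b2 : b ≤ g2 + 1 := by exact_mod_cast a4
          have c1 : (g1:ℝ) < a + 1 := by linarith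
          have c2 : (a:ℝ) < g1 + 1 := by linarith
          have b3 : g1 < a + 1 := by exact_mod_cast c1
          have b4 : a < g1 + 1 := by exact_mod_cast c2
          simp only [side₁, side₂, if_true, Prod.mk.injEq]
          omega
      obtain ⟨τ, ht1, ht2, ht3⟩ := RNG_edge hside
      refine ⟨τ, ?_, by rw [ht2]; exact hg2, ?_⟩
      · rcases ht3 with h | h
        · rw [h]; exact he.2
        · rw [h]; exact RNG_snd he
      · have ho : ae τ ∈ (↑F : Set Edge) := by rw [ht1]; exact Finset.mem_coe.2 he.1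
        rw [nxt_open ho, RNG_seg, ht1]
        exact hze

theorem t_RNG (hO : St_ORB) (hP : St_POL) : St_RNG := by
  intro n F v c hn hF hv hc
  obtain ⟨σ, N, hN, hσ1, hσ2, hper, -, hpath⟩ := hc
  obtain ⟨p1, p2, p3, -⟩ := hP (fun j => pt n (orb (↑F) σ j).1) N hN
  rw [hpath]
  refine ⟨?_, ?_⟩
  · rw [p1, p2]
    simp only [hper, orb_zero]
  · rw [p3]
    apply Set.Subset.antisymm
    · apply Set.iUnion₂_subset
      intro j _
      obtain ⟨h1, h2⟩ := RNG_state hσ1 hσ2 j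
      simp only [orb_succ]
      exact RNG_sub hn hF hv h1 h2
    · intro z hz
      obtain ⟨τ, h1, h2, h3⟩ := RNG_sup hn hF hz
      obtain ⟨s, hs⟩ := hO F v σ τ hσ1 h1 hσ2 h2
      refine Set.mem_iUnion₂.2 ⟨s % N, Finset.mem_range.2 (Nat.mod_lt _ hN), ?_⟩
      simp only [orb_succ]
      rw [RNG_mod hper, hs]
      exact h3

end H342T
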