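import Pool.Agent.H342R3.Tig.Stubs

/-!
SML: a polygonal path with `N` edges of length at most one can be cut into `N ⌈1 / r⌉` pieces of
diameter at most `r`.
-/

namespace H342T

open H342L H342P H342P.Plain H984P MeasureTheory TopologicalSpace Filter Topology
open scoped ENNReal

theorem t_SML (hP : St_POL) : St_SML := by
  intro f N r hN hr hf
  obtain ⟨-, -, -, hpoly⟩ := hP f N hN
  set M : ℕ := ⌈1 / r⌉₊ with hM
  have hMpos : 0 < M := Nat.ceil_pos.mpr (by positivity)
  have hMr : 1 / r ≤ (M : ℝ) := Nat.le_ceil _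
  have hNr : (0 : ℝ) < N := by exact_mod_cast hN
  have hMR : (0 : ℝ) < M := by exact_mod_cast hMpos
  have hMr' : 1 / (M : ℝ) ≤ r := by
    rw [div_le_iff₀ hMR]
    rw [div_le_iff₀ hr] at hMr
    linarith [mul_comm (M : ℝ) r]
  refine ⟨N * M, fun i => (i : ℝ) / ((N : ℝ) * M), Nat.mul_pos hN hMpos, le_rfl, by simp, ?_, ?_, ?_⟩
  · simp only [Nat.cast_mul]
    exact div_self (by positivity)
  · intro i _
    simp only
    apply div_lt_div_of_pos_right _ (by positivity)
    push_cast
    linarith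
  · intro i hi s s' h1 h2 h3 h4
    simp only at h1 h2 h3 h4
    have hNM : (0 : ℝ) < (N : ℝ) * M := by positivity
    rw [div_le_iff₀ hNM] at h1 h3
    rw [le_div_iff₀ hNM] at h2 h4
    push_cast at h2 h4
    -- the edge which contains the piece
    set j : ℕ := i / M with hj
    have hjN : j < N := Nat.div_lt_of_lt_mul (by rwa [mul_comm] at hi)
    have hj1 : (j : ℝ) * M ≤ i := by
      exact_mod_cast Nat.div_mul_le_self i M
    have hj2 : (i : ℝ) + 1 ≤ ((j : ℝ) + 1) * M := by
      have : i + 1 ≤ (j + 1) * M := by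
        have h := Nat.lt_div_mul_add (a := i) hMpos
        rw [add_mul, one_mul]
        exact h
      exact_mod_cast this
    have key : ∀ u : unitInterval, (i : ℝ) ≤ (u : ℝ) * ((N : ℝ) * M) →
        (u : ℝ) * ((N : ℝ) * M) ≤ (i : ℝ) + 1 →
        poly f N u = f j + ((N * (u : ℝ) - j : ℝ) : ℂ) * (f (j + 1) - f j) := by
      intro u hu1 hu2
      apply hpoly j hjN u
      · have : (j : ℝ) * M ≤ (N * (u : ℝ)) * M := by nlinarith
        exact le_of_mul_le_mul_right this hMR
      · have : (N * (u : ℝ)) * M ≤ ((j : ℝ) + 1) * M := by nlinarith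
        exact le_of_mul_le_mul_right this hMR
    rw [key s h1 h2, key s' h3 h4, dist_eq_norm]
    have e : f j + ((N * (s : ℝ) - j : ℝ) : ℂ) * (f (j + 1) - f j) -
        (f j + ((N * (s' : ℝ) - j : ℝ) : ℂ) * (f (j + 1) - f j)) =
        ((N * (s : ℝ) - N * (s' : ℝ) : ℝ) : ℂ) * (f (j + 1) - f j) := by
      push_cast; ring
    rw [e, norm_mul, Complex.norm_real, Real.norm_eq_abs]
    have hd : ‖f (j + 1) - f j‖ ≤ 1 := by
      rw [← dist_eq_norm, dist_comm]; exact hf j
    have ha : |(N : ℝ) * s - N * s'| ≤ 1 / M := by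
      rw [abs_le]
      constructor
      · have : (-(1 / (M : ℝ))) * M ≤ (N * (s : ℝ) - N * s') * M := by
          rw [neg_mul, div_mul_cancel₀ _ hMR.ne']; nlinarith
        exact le_of_mul_le_mul_right this hMR
      · have : (N * (s : ℝ) - N * s') * M ≤ (1 / (M : ℝ)) * M := by
          rw [div_mul_cancel₀ _ hMR.ne']; nlinarith
        exact le_of_mul_le_mul_right this hMR
    calc |(N : ℝ) * s - N * s'| * ‖f (j + 1) - f j‖ ≤ (1 / M) * 1 :=
          mul_le_mul ha hd (norm_nonneg _) (by positivity)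
      _ ≤ r := by rw [mul_one]; exact hMr'

end H342T
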