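import Pool.Agent.H342R3.Tig.Defs

/-!
Statements (as propositions, nothing is assumed) of the tasks of the project: the laws of the
closed lattice path tracing the outer boundary of the largest critical cluster are tight.
-/

namespace H342T

open H342L H342P H342P.Plain H984P MeasureTheory TopologicalSpace Filter Topology
open scoped ENNReal

/-! ### The tracing path -/

/-- ORB: the outer states of a cluster form one orbit. -/
def St_ORB : Prop := ∀ (F : Finset Edge) (v : ℤ × ℤ) (σ τ : St), σ.1 ∈ cluster F v →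
  τ.1 ∈ cluster F v → Plain.Outer F v (face σ) → Plain.Outer F v (face τ) →
  ∃ s, orb (↑F) σ s = τ

/-- POL: elementary properties of polygonal paths. -/
def St_POL : Prop := ∀ (f : ℕ → ℂ) (N : ℕ), 0 < N → poly f N 0 = f 0 ∧ poly f N 1 = f N ∧
  Set.range (poly f N) = ⋃ j ∈ Finset.range N, segment ℝ (f j) (f (j + 1)) ∧
  ∀ j < N, ∀ t : unitInterval, (j : ℝ) ≤ N * (t : ℝ) → N * (t : ℝ) ≤ j + 1 →
    poly f N t = f j + ((N * (t : ℝ) - j : ℝ) : ℂ) * (f (j + 1) - f j)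

/-- EXI: there is a tracing path. -/
def St_EXI : Prop := ∀ (n : ℕ) (F : Finset Edge) (v : ℤ × ℤ), 0 < n → F ⊆ edges n → v ∈ box n →
  ∃ c, IsTrace n F v c

/-- RNG: the tracing path is closed and its trace is the outer boundary. -/
def St_RNG : Prop := ∀ (n : ℕ) (F : Finset Edge) (v : ℤ × ℤ) (c : Curve), 0 < n → F ⊆ edges n →
  v ∈ box n → IsTrace n F v c →
  c.path 0 = c.path 1 ∧ Set.range c.path = outerBoundary n F v

/-! ### Number of pieces -/

/-- GRD: every piece of size `R = 4 a + 2` contains a strand of width `3 a`. -/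
def St_GRD : Prop := ∀ (n a : ℕ) (F : Finset Edge) (σ : St) (N : ℕ), 0 < n → 1 ≤ a →
  (∀ s, H974.inR 0 n 0 n (orb (↑F) σ s).1) → 0 < N → orb (↑F) σ N = σ →
  (∀ j, 0 < j → j < N → orb (↑F) σ j ≠ σ) →
  Cut (N4 n a F + 1) ((12 * a + 6) / n) (poly (fun j => pt n (orb (↑F) σ j).1) N)

/-- CNT: number of strands. -/
def St_CNT : Prop := ∃ C : ℝ, 0 < C ∧ ∀ (n a m : ℕ), 5 ≤ a → 1 ≤ m →
  H974.Pr (fun _ => (1/2:ℝ)) (H974.RE 0 n 0 n) (fun F => m ≤ N4 n a F) ≤
    C * ((n:ℝ) / a + 1) ^ 2 / m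

/-- SML: trivial bound for the number of pieces. -/
def St_SML : Prop := ∀ (f : ℕ → ℂ) (N : ℕ) (r : ℝ), 0 < N → 0 < r →
  (∀ j, dist (f j) (f (j + 1)) ≤ 1) → Cut (N * ⌈1 / r⌉₊) r (poly f N)

/-! ### Compactness -/

/-- ARZ: curves which can be cut into a bounded number of pieces at every scale. -/
def St_ARZ : Prop := ∀ D : ℕ → ℕ, ∃ K : Set Curve, IsCompact K ∧ IsClosed K ∧ ∀ c : Curve,
  (∀ s, c.path s ∈ csq) → (∀ j : ℕ, Cut (D j) (1 / ((j:ℝ) + 1)) c.path) → c ∈ K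

/-- PRK: tight sequences of laws of curves have convergent subsequences. -/
def St_PRK : Prop := ∀ μs : ℕ → ProbabilityMeasure Curve,
  (∀ ε : ℝ, 0 < ε → ∃ K : Set Curve, IsCompact K ∧ IsClosed K ∧
    ∀ i, (μs i : Measure Curve) Kᶜ ≤ ENNReal.ofReal ε) →
  ∃ (φ : ℕ → ℕ) (μ : ProbabilityMeasure Curve), StrictMono φ ∧
    Tendsto (fun i => μs (φ i)) atTop (𝓝 μ)

end H342T
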